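import Pool.Agent.H42.KlarnerCount

/-!
# Klarner's constant: existence of the limit and convergence of the upper bounds
-/

namespace Pool.Agent.H42.Klarner

open Finset Filter Topology

/-- `j / 2 ^ m` is at least `g k ^ (1 / k)` for all `m ≤ k ≤ 8 m` -/
def cond (m j : ℕ) : Prop := ∀ k, m ≤ k → k ≤ 8 * m → g k * 2 ^ (m * k) ≤ j ^ k

lemma cond_exists {m : ℕ} (hm : 1 ≤ m) : ∃ j, cond m j := by
  refine ⟨∑ k ∈ Finset.range (8 * m + 1), g k * 2 ^ (m * k) + 1, ?_⟩
  intro k hk1 hk2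
  have h1 : g k * 2 ^ (m * k) ≤ ∑ k ∈ Finset.range (8 * m + 1), g k * 2 ^ (m * k) :=
    Finset.single_le_sum (f := fun k => g k * 2 ^ (m * k)) (fun _ _ => Nat.zero_le _)
      (Finset.mem_range.2 (by omega))
  calc g k * 2 ^ (m * k) ≤ (∑ k ∈ Finset.range (8 * m + 1), g k * 2 ^ (m * k) + 1) ^ 1 := by
        rw [pow_one]; omega
    _ ≤ _ := Nat.pow_le_pow_right (by omega) (by omega)

open Classical in
/-- the least `j` with `cond m j` -/
noncomputable def J (m : ℕ) : ℕ := if h : ∃ j, cond m j then Nat.find h else 0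

lemma J_spec {m : ℕ} (hm : 1 ≤ m) : cond m (J m) := by
  classical
  unfold J
  rw [dif_pos (cond_exists hm)]
  exact Nat.find_spec (cond_exists hm)

lemma J_le {m j : ℕ} (h : cond m j) : J m ≤ j := by
  classical
  unfold J
  rw [dif_pos ⟨j, h⟩]
  exact Nat.find_min' _ h

lemma J_bound {m : ℕ} (hm : 1 ≤ m) : ∀ n, m ≤ n → g n * 2 ^ (m * n) ≤ (J m) ^ n := by
  intro n
  induction n using Nat.strong_induction_on with
  | _ n ih =>
    intro hn
    by_cases h : n ≤ 8 * m
    · exact J_spec hm n hn h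
    · push Not at h
      obtain ⟨k, hk, hg⟩ := g_split (n := n) (by omega)
      rw [mem_idx] at hk
      have h1 := ih k (by omega) (by omega)
      have h2 := ih (n - k) (by omega) (by omega)
      obtain ⟨j, hj⟩ : ∃ j, n = k + j := ⟨n - k, by omega⟩
      subst hj
      rw [Nat.add_sub_cancel_left] at h2 hg
      calc g (k + j) * 2 ^ (m * (k + j)) ≤ g k * g j * 2 ^ (m * (k + j)) :=
            Nat.mul_le_mul_right _ hg
        _ = (g k * 2 ^ (m * k)) * (g j * 2 ^ (m * j)) := by ring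
        _ ≤ J m ^ k * J m ^ j := Nat.mul_le_mul h1 h2
        _ = J m ^ (k + j) := by ring

lemma t_le_g {n : ℕ} (hn : 1 ≤ n) : t n ≤ g n := by
  unfold g
  have : 1 ≤ 5832 * n ^ 3 := by
    have := Nat.pow_pos (n := 3) hn
    omega
  calc t n = 1 * t n := (one_mul _).symm
    _ ≤ _ := Nat.mul_le_mul_right _ this

lemma g_pos {n : ℕ} (hn : 1 ≤ n) : 0 < g n := lt_of_lt_of_le (t_pos hn) (t_le_g hn)

lemma J_pos {m : ℕ} (hm : 1 ≤ m) : 0 < J m := by
  by_contra h
  have h0 : J m = 0 := by omega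
  have h1 := J_bound hm m le_rfl
  rw [h0, zero_pow (by omega)] at h1
  have h2 : 0 < g m * 2 ^ (m * m) := Nat.mul_pos (g_pos hm) (by positivity)
  omega

lemma J_succ {m : ℕ} (hm : 1 ≤ m) : J (m + 1) ≤ 2 * J m := by
  apply J_le
  intro k hk1 _
  have h := J_bound hm k (by omega)
  calc g k * 2 ^ ((m + 1) * k) = (g k * 2 ^ (m * k)) * 2 ^ k := by ring
    _ ≤ J m ^ k * 2 ^ k := Nat.mul_le_mul_right _ h
    _ = (2 * J m) ^ k := by ring

lemma not_cond {m : ℕ} (hm : 1 ≤ m) : ∃ k, m ≤ k ∧ (J m - 1) ^ k < g k * 2 ^ (m * k) := by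
  have hJ := J_pos hm
  have h : ¬ cond m (J m - 1) := by
    intro h
    have := J_le h
    omega
  unfold cond at h
  push Not at h
  obtain ⟨k, h1, _, h3⟩ := h
  exact ⟨k, h1, h3⟩

/-- the subadditive sequence -/
noncomputable def u (n : ℕ) : ℝ := - Real.log (t n)

lemma t_zero : t 0 = 0 := by
  rw [t_eq, Finset.card_eq_zero, Finset.eq_empty_iff_forall_notMem]
  intro A hA
  rw [mem_X] at hA
  obtain ⟨h1, h2, _⟩ := hA
  rw [Finset.card_eq_zero] at h1
  have := h2.1
  rw [h1] at this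
  simp at this

lemma u_subadditive : Subadditive u := by
  intro m n
  unfold u
  rcases Nat.eq_zero_or_pos m with hm | hm
  · subst hm; simp [t_zero]
  rcases Nat.eq_zero_or_pos n with hn | hn
  · subst hn; simp [t_zero]
  have h1 : (0 : ℝ) < t m := by exact_mod_cast t_pos hm
  have h2 : (0 : ℝ) < t n := by exact_mod_cast t_pos hn
  have h3 : (t m : ℝ) * t n ≤ t (m + n) := by exact_mod_cast t_mul_le m n
  have h4 : Real.log (t m) + Real.log (t n) ≤ Real.log (t (m + n)) := by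
    rw [← Real.log_mul h1.ne' h2.ne']
    exact Real.log_le_log (by positivity) h3
  linarith

lemma log_t_le {m n : ℕ} (hm : 1 ≤ m) (hn : m ≤ n) :
    Real.log (t n) ≤ n * Real.log ((J m : ℝ) / 2 ^ m) := by
  have h1 : (0 : ℝ) < t n := by exact_mod_cast t_pos (by omega)
  have h2 : (t n : ℝ) * (2 ^ m) ^ n ≤ (J m : ℝ) ^ n := by
    have h3 : t n * 2 ^ (m * n) ≤ J m ^ n :=
      (Nat.mul_le_mul_right _ (t_le_g (by omega))).trans (J_bound hm n hn)
    rw [pow_mul] at h3
    exact_mod_cast h3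
  have h3 : (t n : ℝ) ≤ ((J m : ℝ) / 2 ^ m) ^ n := by
    rw [div_pow, le_div_iff₀ (by positivity)]
    exact h2
  have h4 := Real.log_le_log h1 h3
  rwa [Real.log_pow] at h4

lemma u_bddBelow : BddBelow (Set.range fun n => u n / n) := by
  refine ⟨min 0 (- Real.log ((J 1 : ℝ) / 2 ^ 1)), ?_⟩
  rintro x ⟨n, rfl⟩
  rcases Nat.eq_zero_or_pos n with hn | hn
  · subst hn; simp
  · refine (min_le_right _ _).trans ?_
    have hn' : (0 : ℝ) < n := by exact_mod_cast hn
    rw [le_div_iff₀ hn']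
    have := log_t_le (m := 1) le_rfl hn
    unfold u
    linarith

lemma exists_log_lim : ∃ ℓ : ℝ, Tendsto (fun n : ℕ => Real.log (t n) / n) atTop (𝓝 ℓ) := by
  refine ⟨- u_subadditive.lim, ?_⟩
  have h := u_subadditive.tendsto_lim u_bddBelow
  have h2 := h.neg
  refine h2.congr ?_
  intro n
  unfold u
  ring

lemma tendsto_log_g {ℓ : ℝ} (h : Tendsto (fun n : ℕ => Real.log (t n) / n) atTop (𝓝 ℓ)) :
    Tendsto (fun n : ℕ => Real.log (g n) / n) atTop (𝓝 ℓ) := by
  have h1 : Tendsto (fun n : ℕ => Real.log 5832 / (n : ℝ)) atTop (𝓝 0) :=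
    tendsto_const_div_atTop_nhds_zero_nat _
  have h2 : Tendsto (fun n : ℕ => Real.log (n : ℝ) / (n : ℝ)) atTop (𝓝 0) := by
    have h3 := Real.isLittleO_log_id_atTop.tendsto_div_nhds_zero
    exact h3.comp tendsto_natCast_atTop_atTop
  have h4 := (h1.add (h2.const_mul 3)).add h
  simp only [mul_zero, add_zero, zero_add] at h4
  refine h4.congr' ?_
  filter_upwards [eventually_ge_atTop 1] with n hn
  have hn' : (0 : ℝ) < n := by exact_mod_cast hn
  have ht : (0 : ℝ) < t n := by exact_mod_cast t_pos hn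
  unfold g
  push_cast
  rw [Real.log_mul (by positivity) ht.ne', Real.log_mul (by norm_num) (by positivity),
    Real.log_pow]
  push_cast
  ring

lemma tendsto_root {ℓ : ℝ} (h : Tendsto (fun n : ℕ => Real.log (t n) / n) atTop (𝓝 ℓ)) :
    Tendsto (fun n : ℕ => (t n : ℝ) ^ (1 / (n : ℝ))) atTop (𝓝 (Real.exp ℓ)) := by
  have h1 := (Real.continuous_exp.tendsto ℓ).comp h
  refine h1.congr' ?_
  filter_upwards [eventually_ge_atTop 1] with n hn
  have ht : (0 : ℝ) < t n := by exact_mod_cast t_pos hn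
  simp only [Function.comp_apply]
  rw [Real.rpow_def_of_pos ht]
  congr 1
  ring

lemma exp_le {ℓ : ℝ} (h : Tendsto (fun n : ℕ => Real.log (t n) / n) atTop (𝓝 ℓ)) {m : ℕ}
    (hm : 1 ≤ m) : Real.exp ℓ ≤ (J m : ℝ) / 2 ^ m := by
  have hJ : (0 : ℝ) < J m := by exact_mod_cast J_pos hm
  have h1 : ℓ ≤ Real.log ((J m : ℝ) / 2 ^ m) := by
    refine le_of_tendsto h ?_
    filter_upwards [eventually_ge_atTop m] with n hn
    have hn' : (0 : ℝ) < n := by
      have : 0 < n := by omega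
      exact_mod_cast this
    rw [div_le_iff₀ hn']
    have := log_t_le hm hn
    linarith
  calc Real.exp ℓ ≤ Real.exp (Real.log ((J m : ℝ) / 2 ^ m)) := Real.exp_le_exp.2 h1
    _ = _ := Real.exp_log (by positivity)

lemma J_upper {ℓ μ : ℝ} (h : Tendsto (fun n : ℕ => Real.log (t n) / n) atTop (𝓝 ℓ))
    (hμ : Real.exp ℓ < μ) : ∀ᶠ m : ℕ in atTop, (J m : ℝ) - 1 < μ * 2 ^ m := by
  have hμ0 : 0 < μ := lt_trans (Real.exp_pos ℓ) hμ
  have hlog : ℓ < Real.log μ := by
    rw [← Real.exp_lt_exp, Real.exp_log hμ0]; exact hμ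
  have hev : ∀ᶠ k : ℕ in atTop, (g k : ℝ) < μ ^ k := by
    have h1 := (tendsto_log_g h).eventually_lt_const hlog
    filter_upwards [h1, eventually_ge_atTop 1] with k hk hk1
    have hk' : (0 : ℝ) < k := by exact_mod_cast hk1
    have hg : (0 : ℝ) < g k := by exact_mod_cast g_pos hk1
    rw [div_lt_iff₀ hk'] at hk
    rw [← Real.log_lt_log_iff hg (by positivity), Real.log_pow]
    linarith
  obtain ⟨K, hK⟩ := eventually_atTop.1 hev
  filter_upwards [eventually_ge_atTop K, eventually_ge_atTop 1] with m hm hm1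
  obtain ⟨k, hk1, hk2⟩ := not_cond hm1
  have hJ := J_pos hm1
  have h3 : ((J m : ℝ) - 1) ^ k < (g k : ℝ) * (2 ^ m) ^ k := by
    have h4 : ((J m - 1 : ℕ) : ℝ) ^ k < (g k : ℝ) * (2 ^ m) ^ k := by
      rw [← pow_mul]; exact_mod_cast hk2
    rwa [Nat.cast_sub hJ, Nat.cast_one] at h4
  have h4 : (g k : ℝ) * (2 ^ m) ^ k < (μ * 2 ^ m) ^ k := by
    rw [mul_pow]
    apply mul_lt_mul_of_pos_right (hK k (by omega)) (by positivity)
  exact lt_of_pow_lt_pow_left₀ k (by positivity) (h3.trans h4)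

/-- the decreasing sequence of rational upper bounds -/
noncomputable def beta (n : ℕ) : ℚ := ((J (n + 1) + 1 : ℕ) : ℚ) / ((2 ^ (n + 1) : ℕ) : ℚ)

lemma beta_strictAnti : StrictAnti beta := by
  apply strictAnti_nat_of_succ_lt
  intro n
  unfold beta
  rw [div_lt_div_iff₀ (by positivity) (by positivity)]
  have h := J_succ (m := n + 1) (by omega)
  have h2 : (J (n + 1 + 1) + 1) * 2 ^ (n + 1) < (J (n + 1) + 1) * 2 ^ (n + 1 + 1) := by
    calc (J (n + 1 + 1) + 1) * 2 ^ (n + 1) ≤ (2 * J (n + 1) + 1) * 2 ^ (n + 1) := by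
          apply Nat.mul_le_mul_right; omega
      _ < (2 * J (n + 1) + 2) * 2 ^ (n + 1) := by
          apply Nat.mul_lt_mul_of_pos_right (by omega) (by positivity)
      _ = (J (n + 1) + 1) * 2 ^ (n + 1 + 1) := by ring
  exact_mod_cast h2

lemma beta_tendsto {ℓ : ℝ} (h : Tendsto (fun n : ℕ => Real.log (t n) / n) atTop (𝓝 ℓ)) :
    Tendsto (fun n : ℕ => (beta n : ℝ)) atTop (𝓝 (Real.exp ℓ)) := by
  have hb : ∀ n, (beta n : ℝ) = ((J (n + 1) : ℝ) + 1) / 2 ^ (n + 1) := by
    intro n; unfold beta; push_cast; rfl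
  rw [tendsto_order]
  constructor
  · intro a ha
    filter_upwards with n
    have h1 := exp_le h (m := n + 1) (by omega)
    rw [hb]
    calc a < Real.exp ℓ := ha
      _ ≤ (J (n + 1) : ℝ) / 2 ^ (n + 1) := h1
      _ ≤ _ := by
        apply div_le_div_of_nonneg_right _ (by positivity)
        linarith
  · intro a ha
    obtain ⟨μ, hμ1, hμ2⟩ := exists_between ha
    have h1 := J_upper h hμ1
    have h2 : Tendsto (fun m : ℕ => μ + 2 * (1 / 2 : ℝ) ^ m) atTop (𝓝 (μ + 2 * 0)) :=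
      (tendsto_pow_atTop_nhds_zero_of_lt_one (by norm_num) (by norm_num)).const_mul 2
        |>.const_add μ
    have h3 : ∀ᶠ m : ℕ in atTop, μ + 2 * (1 / 2 : ℝ) ^ m < a :=
      h2.eventually_lt_const (by linarith)
    have h4 : ∀ᶠ m : ℕ in atTop, ((J m : ℝ) + 1) / 2 ^ m < a := by
      filter_upwards [h1, h3] with m hm1 hm2
      have : ((J m : ℝ) + 1) / 2 ^ m < μ + 2 * (1 / 2 : ℝ) ^ m := by
        rw [div_lt_iff₀ (by positivity)]
        have e : (1 / 2 : ℝ) ^ m * 2 ^ m = 1 := by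
          rw [← mul_pow]; norm_num
        nlinarith [hm1, e]
      linarith
    have h5 := (tendsto_add_atTop_nat 1).eventually h4
    filter_upwards [h5] with n hn
    rw [hb]; exact hn

end Pool.Agent.H42.Klarner
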