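import Pool.Agent.H42.KlarnerDefs

/-!
# Combinatorics of polyominoes: connectivity, normal forms, splitting and concatenation
-/

namespace Pool.Agent.H42.Klarner

open Finset

lemma adj_symm {p q : ℤ × ℤ} (h : grid.Adj p q) : grid.Adj q p := h.symm

lemma adj_iff {p q : ℤ × ℤ} : grid.Adj p q ↔ |p.1 - q.1| + |p.2 - q.2| = 1 := Iff.rfl

/-- cut characterisation of connectedness -/
def Conn (A : Finset (ℤ × ℤ)) : Prop :=
  A.Nonempty ∧ ∀ S ⊆ A, S.Nonempty → S ≠ A → ∃ a ∈ S, ∃ b ∈ A, b ∉ S ∧ grid.Adj a b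

lemma conn_iff (A : Finset (ℤ × ℤ)) :
    (grid.induce (A : Set (ℤ × ℤ))).Connected ↔ Conn A := by
  classical
  constructor
  · intro h
    have hpre := h.preconnected
    refine ⟨?_, ?_⟩
    · obtain ⟨x⟩ := h.nonempty
      exact ⟨x.1, by simpa using x.2⟩
    · intro S hS hSne hSA
      obtain ⟨x, hx⟩ := hSne
      obtain ⟨y, hy, hyS⟩ : ∃ y ∈ A, y ∉ S := by
        by_contra hcon
        push Not at hcon
        exact hSA (Finset.Subset.antisymm hS hcon)
      by_contra hno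
      push Not at hno
      have hreach := hpre ⟨x, by simpa using hS hx⟩ ⟨y, by simpa using hy⟩
      obtain ⟨w⟩ := hreach
      have key : ∀ (u v : (A : Set (ℤ × ℤ))), (grid.induce (A : Set (ℤ × ℤ))).Walk u v →
          u.1 ∈ S → v.1 ∈ S := by
        intro u v w
        induction w with
        | nil => exact id
        | @cons a b c hab p ih =>
          intro ha
          apply ih
          by_contra hb
          exact hno a.1 ha b.1 (by simpa using b.2) hb hab
      exact hyS (key _ _ w hx)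
  · rintro ⟨⟨x0, hx0⟩, hcut⟩
    have : Nonempty (A : Set (ℤ × ℤ)) := ⟨⟨x0, Finset.mem_coe.2 hx0⟩⟩
    refine ⟨?_⟩
    intro x y
    let S : Finset (ℤ × ℤ) := A.filter (fun z => ∃ hz : z ∈ (A : Set (ℤ × ℤ)),
      (grid.induce (A : Set (ℤ × ℤ))).Reachable x ⟨z, hz⟩)
    have hmem : ∀ z, z ∈ S ↔ ∃ hz : z ∈ (A : Set (ℤ × ℤ)),
        (grid.induce (A : Set (ℤ × ℤ))).Reachable x ⟨z, hz⟩ := by
      intro z
      rw [Finset.mem_filter]
      constructor
      · exact fun h => h.2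
      · rintro ⟨hz, h⟩; exact ⟨by simpa using hz, hz, h⟩
    have hSA : S = A := by
      by_contra hne
      obtain ⟨a, ha, b, hb, hbS, hab⟩ := hcut S (Finset.filter_subset _ _)
        ⟨x.1, (hmem _).2 ⟨x.2, SimpleGraph.Reachable.refl _⟩⟩ hne
      apply hbS
      rw [hmem] at ha ⊢
      obtain ⟨haA, hra⟩ := ha
      refine ⟨by simpa using hb, hra.trans ?_⟩
      apply SimpleGraph.Adj.reachable
      exact hab
    have hy : y.1 ∈ S := by rw [hSA]; exact Finset.mem_coe.1 y.2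
    rw [hmem] at hy
    obtain ⟨hz, h⟩ := hy
    exact h

lemma isOmino_iff (n : ℕ) (A : Finset (ℤ × ℤ)) : IsOmino n A ↔ A.card = n ∧ Conn A := by
  unfold IsOmino
  rw [conn_iff]

/-! ### shifts -/

lemma shift_shift (v w : ℤ × ℤ) (A : Finset (ℤ × ℤ)) : shift w (shift v A) = shift (v + w) A := by
  ext p
  rw [mem_shift, mem_shift, mem_shift]
  rw [show p - w - v = p - (v + w) by abel]

lemma shift_zero (A : Finset (ℤ × ℤ)) : shift 0 A = A := by
  ext p
  rw [mem_shift, sub_zero]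

lemma card_shift (v : ℤ × ℤ) (A : Finset (ℤ × ℤ)) : (shift v A).card = A.card := by
  unfold shift
  exact Finset.card_image_of_injective _ (add_left_injective v)

lemma shift_union (v : ℤ × ℤ) (A B : Finset (ℤ × ℤ)) :
    shift v (A ∪ B) = shift v A ∪ shift v B := by
  unfold shift
  exact Finset.image_union _ _

lemma shift_nonempty {v : ℤ × ℤ} {A : Finset (ℤ × ℤ)} (h : A.Nonempty) : (shift v A).Nonempty :=
  h.image _

lemma add_mem_shift {v p : ℤ × ℤ} {A : Finset (ℤ × ℤ)} (h : p ∈ A) : p + v ∈ shift v A := by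
  rw [mem_shift, add_sub_cancel_right]; exact h

lemma adj_add (v : ℤ × ℤ) {p q : ℤ × ℤ} : grid.Adj (p + v) (q + v) ↔ grid.Adj p q := by
  rw [adj_iff, adj_iff]
  simp

lemma adj_sub (v : ℤ × ℤ) {p q : ℤ × ℤ} : grid.Adj (p - v) (q - v) ↔ grid.Adj p q := by
  rw [adj_iff, adj_iff]
  simp

lemma conn_shift {v : ℤ × ℤ} {A : Finset (ℤ × ℤ)} (h : Conn A) : Conn (shift v A) := by
  refine ⟨shift_nonempty h.1, ?_⟩
  intro S hS hne hSA
  have h1 : shift (-v) S ⊆ A := by
    intro p hp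
    rw [mem_shift] at hp
    have := hS hp
    rw [mem_shift] at this
    simpa using this
  have h2 : shift (-v) S ≠ A := by
    intro he
    apply hSA
    rw [← he, shift_shift]
    simp [shift_zero]
  obtain ⟨a, ha, b, hb, hbS, hab⟩ := h.2 _ h1 (shift_nonempty hne) h2
  refine ⟨a + v, ?_, b + v, add_mem_shift hb, ?_, (adj_add v).2 hab⟩
  · rw [mem_shift] at ha; simpa using ha
  · rw [mem_shift] at hbS; simpa using hbS

lemma conn_union {A B : Finset (ℤ × ℤ)} (hA : Conn A) (hB : Conn B) {a b : ℤ × ℤ} (ha : a ∈ A)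
    (hb : b ∈ B) (hab : grid.Adj a b) : Conn (A ∪ B) := by
  classical
  refine ⟨hA.1.mono Finset.subset_union_left, ?_⟩
  intro S hS hne hSA
  by_cases h1 : (S ∩ A).Nonempty ∧ S ∩ A ≠ A
  · obtain ⟨x, hx, y, hy, hyS, hxy⟩ := hA.2 (S ∩ A) Finset.inter_subset_right h1.1 h1.2
    refine ⟨x, (Finset.mem_inter.1 hx).1, y, Finset.mem_union_left _ hy, ?_, hxy⟩
    intro h; exact hyS (Finset.mem_inter.2 ⟨h, hy⟩)
  by_cases h2 : (S ∩ B).Nonempty ∧ S ∩ B ≠ B
  · obtain ⟨x, hx, y, hy, hyS, hxy⟩ := hB.2 (S ∩ B) Finset.inter_subset_right h2.1 h2.2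
    refine ⟨x, (Finset.mem_inter.1 hx).1, y, Finset.mem_union_right _ hy, ?_, hxy⟩
    intro h; exact hyS (Finset.mem_inter.2 ⟨h, hy⟩)
  -- now `S ∩ A` is empty or `A`, and the same for `B`
  have h1' : S ∩ A = ∅ ∨ S ∩ A = A := by
    by_cases h : (S ∩ A).Nonempty
    · right; by_contra hc; exact h1 ⟨h, hc⟩
    · left; exact Finset.not_nonempty_iff_eq_empty.1 h
  have h2' : S ∩ B = ∅ ∨ S ∩ B = B := by
    by_cases h : (S ∩ B).Nonempty
    · right; by_contra hc; exact h2 ⟨h, hc⟩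
    · left; exact Finset.not_nonempty_iff_eq_empty.1 h
  rcases h1' with h1' | h1' <;> rcases h2' with h2' | h2'
  · exfalso
    obtain ⟨x, hx⟩ := hne
    rcases Finset.mem_union.1 (hS hx) with h | h
    · have : x ∈ S ∩ A := Finset.mem_inter.2 ⟨hx, h⟩
      rw [h1'] at this; simp at this
    · have : x ∈ S ∩ B := Finset.mem_inter.2 ⟨hx, h⟩
      rw [h2'] at this; simp at this
  · refine ⟨b, ?_, a, Finset.mem_union_left _ ha, ?_, hab.symm⟩
    · rw [← h2'] at hb; exact (Finset.mem_inter.1 hb).1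
    · intro h
      have : a ∈ S ∩ A := Finset.mem_inter.2 ⟨h, ha⟩
      rw [h1'] at this; simp at this
  · refine ⟨a, ?_, b, Finset.mem_union_right _ hb, ?_, hab⟩
    · rw [← h1'] at ha; exact (Finset.mem_inter.1 ha).1
    · intro h
      have : b ∈ S ∩ B := Finset.mem_inter.2 ⟨h, hb⟩
      rw [h2'] at this; simp at this
  · exfalso
    apply hSA
    apply Finset.Subset.antisymm hS
    intro x hx
    rcases Finset.mem_union.1 hx with h | h
    · rw [← h1'] at h; exact (Finset.mem_inter.1 h).1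
    · rw [← h2'] at h; exact (Finset.mem_inter.1 h).1

lemma conn_union_of_mem {A B : Finset (ℤ × ℤ)} (hA : Conn A) (hB : Conn B) {a : ℤ × ℤ} (ha : a ∈ A)
    (hb : a ∈ B) : Conn (A ∪ B) := by
  classical
  refine ⟨hA.1.mono Finset.subset_union_left, ?_⟩
  intro S hS hne hSA
  by_cases h1 : (S ∩ A).Nonempty ∧ S ∩ A ≠ A
  · obtain ⟨x, hx, y, hy, hyS, hxy⟩ := hA.2 (S ∩ A) Finset.inter_subset_right h1.1 h1.2
    refine ⟨x, (Finset.mem_inter.1 hx).1, y, Finset.mem_union_left _ hy, ?_, hxy⟩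
    intro h; exact hyS (Finset.mem_inter.2 ⟨h, hy⟩)
  by_cases h2 : (S ∩ B).Nonempty ∧ S ∩ B ≠ B
  · obtain ⟨x, hx, y, hy, hyS, hxy⟩ := hB.2 (S ∩ B) Finset.inter_subset_right h2.1 h2.2
    refine ⟨x, (Finset.mem_inter.1 hx).1, y, Finset.mem_union_right _ hy, ?_, hxy⟩
    intro h; exact hyS (Finset.mem_inter.2 ⟨h, hy⟩)
  have h1' : S ∩ A = ∅ ∨ S ∩ A = A := by
    by_cases h : (S ∩ A).Nonempty
    · right; by_contra hc; exact h1 ⟨h, hc⟩
    · left; exact Finset.not_nonempty_iff_eq_empty.1 h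
  have h2' : S ∩ B = ∅ ∨ S ∩ B = B := by
    by_cases h : (S ∩ B).Nonempty
    · right; by_contra hc; exact h2 ⟨h, hc⟩
    · left; exact Finset.not_nonempty_iff_eq_empty.1 h
  exfalso
  by_cases haS : a ∈ S
  · have e1 : S ∩ A = A := by
      rcases h1' with h | h
      · have : a ∈ S ∩ A := Finset.mem_inter.2 ⟨haS, ha⟩
        rw [h] at this; simp at this
      · exact h
    have e2 : S ∩ B = B := by
      rcases h2' with h | h
      · have : a ∈ S ∩ B := Finset.mem_inter.2 ⟨haS, hb⟩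
        rw [h] at this; simp at this
      · exact h
    apply hSA
    apply Finset.Subset.antisymm hS
    intro x hx
    rcases Finset.mem_union.1 hx with h | h
    · rw [← e1] at h; exact (Finset.mem_inter.1 h).1
    · rw [← e2] at h; exact (Finset.mem_inter.1 h).1
  · have e1 : S ∩ A = ∅ := by
      rcases h1' with h | h
      · exact h
      · rw [← h] at ha; exact absurd (Finset.mem_inter.1 ha).1 haS
    have e2 : S ∩ B = ∅ := by
      rcases h2' with h | h
      · exact h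
      · rw [← h] at hb; exact absurd (Finset.mem_inter.1 hb).1 haS
    obtain ⟨x, hx⟩ := hne
    rcases Finset.mem_union.1 (hS hx) with h | h
    · have : x ∈ S ∩ A := Finset.mem_inter.2 ⟨hx, h⟩
      rw [e1] at this; simp at this
    · have : x ∈ S ∩ B := Finset.mem_inter.2 ⟨hx, h⟩
      rw [e2] at this; simp at this

lemma conn_singleton (a : ℤ × ℤ) : Conn {a} := by
  refine ⟨Finset.singleton_nonempty a, ?_⟩
  intro S hS hne hSA
  exfalso
  rcases Finset.subset_singleton_iff.1 hS with h | h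
  · rw [h] at hne; simp at hne
  · exact hSA h

/-! ### splitting -/

/-- neighbours of a cell -/
def nbrs (b : ℤ × ℤ) : Finset (ℤ × ℤ) :=
  {b + (1, 0), b + (-1, 0), b + (0, 1), b + (0, -1)}

lemma mem_nbrs {b c : ℤ × ℤ} : c ∈ nbrs b ↔ grid.Adj b c := by
  obtain ⟨b1, b2⟩ := b
  obtain ⟨c1, c2⟩ := c
  rw [adj_iff]
  unfold nbrs
  simp only [Finset.mem_insert, Finset.mem_singleton, Prod.mk_add_mk, Prod.mk.injEq]
  constructor
  · rintro (⟨h1, h2⟩ | ⟨h1, h2⟩ | ⟨h1, h2⟩ | ⟨h1, h2⟩) <;> subst h1 <;> subst h2 <;> simp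
  · intro h
    rcases abs_cases (b1 - c1) with ⟨e1, _⟩ | ⟨e1, _⟩ <;>
    rcases abs_cases (b2 - c2) with ⟨e2, _⟩ | ⟨e2, _⟩ <;> rw [e1, e2] at h <;> omega

lemma card_nbrs_le (b : ℤ × ℤ) : (nbrs b).card ≤ 4 := Finset.card_le_four

open Classical in
/-- a maximal connected subset of `D` containing `c` -/
lemma exists_maximal_conn (D : Finset (ℤ × ℤ)) (c : ℤ × ℤ) (hc : c ∈ D) :
    ∃ E, E ⊆ D ∧ Conn E ∧ c ∈ E ∧ ∀ x ∈ D, x ∉ E → ∀ y ∈ E, ¬ grid.Adj y x := by
  have hne : (D.powerset.filter (fun E => Conn E ∧ c ∈ E)).Nonempty :=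
    ⟨{c}, by
      rw [Finset.mem_filter, Finset.mem_powerset]
      exact ⟨by simpa using hc, conn_singleton c, Finset.mem_singleton_self c⟩⟩
  obtain ⟨E, hE, hmax⟩ := Finset.exists_max_image _ Finset.card hne
  rw [Finset.mem_filter, Finset.mem_powerset] at hE
  refine ⟨E, hE.1, hE.2.1, hE.2.2, ?_⟩
  intro x hx hxE y hy hyx
  have h1 : Conn (E ∪ {x}) := conn_union hE.2.1 (conn_singleton x) hy
    (Finset.mem_singleton_self x) hyx
  have h2 := hmax (E ∪ {x}) (by
    rw [Finset.mem_filter, Finset.mem_powerset]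
    refine ⟨Finset.union_subset hE.1 (by simpa using hx), h1, Finset.mem_union_left _ hE.2.2⟩)
  have h3 : (E ∪ {x}).card = E.card + 1 := by
    rw [Finset.card_union_of_disjoint (by simpa using hxE)]
    simp
  omega

/-- a connected subset closed under adjacency contains every connected set it meets -/
lemma subset_of_closed {D E F : Finset (ℤ × ℤ)} (hF : Conn F) (hFD : F ⊆ D)
    (hE : ∀ x ∈ D, x ∉ E → ∀ y ∈ E, ¬ grid.Adj y x) {c : ℤ × ℤ} (hc : c ∈ E) (hcF : c ∈ F) :
    F ⊆ E := by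
  classical
  by_contra hno
  have hne : F ∩ E ≠ F := by
    intro h
    exact hno (Finset.inter_eq_left.1 h)
  obtain ⟨a, ha, b, hb, hbS, hab⟩ := hF.2 (F ∩ E) Finset.inter_subset_left
    ⟨c, Finset.mem_inter.2 ⟨hcF, hc⟩⟩ hne
  have hbE : b ∉ E := fun h => hbS (Finset.mem_inter.2 ⟨hb, h⟩)
  exact hE b (hFD hb) hbE a (Finset.mem_inter.1 ha).2 hab

/-- One step: from a connected `B` with a marked cell `b`, find a large component of `B \ {b}`. -/
lemma step {A B : Finset (ℤ × ℤ)} {b : ℤ × ℤ} (hBA : B ⊆ A) (hb : b ∈ B) (hB : Conn B)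
    (hZ : Conn ((A \ B) ∪ {b})) (hcard : 2 ≤ B.card) :
    ∃ (D : Finset (ℤ × ℤ)) (c : ℤ × ℤ), D ⊆ B.erase b ∧ c ∈ D ∧ grid.Adj b c ∧ Conn D ∧
      Conn (A \ D) ∧ Conn ((A \ D) ∪ {c}) ∧ B.card ≤ 4 * D.card + 1 := by
  classical
  -- components
  have hex : ∀ c ∈ B.erase b, ∃ E, E ⊆ B.erase b ∧ Conn E ∧ c ∈ E ∧
      ∀ x ∈ B.erase b, x ∉ E → ∀ y ∈ E, ¬ grid.Adj y x :=
    fun c hc => exists_maximal_conn (B.erase b) c hc
  choose! comp h1 h2 h3 h4 using hex
  -- each component contains a neighbour of `b`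
  have h5 : ∀ c ∈ B.erase b, ∃ d ∈ comp c, grid.Adj b d := by
    intro c hc
    have hne : comp c ≠ B := by
      intro h
      have := h1 c hc
      rw [h] at this
      have := this hb
      simp at this
    obtain ⟨a, ha, x, hx, hxS, hax⟩ := hB.2 (comp c)
      ((h1 c hc).trans (Finset.erase_subset _ _)) ⟨c, h3 c hc⟩ hne
    by_cases hxb : x = b
    · subst hxb; exact ⟨a, ha, hax.symm⟩
    · exact absurd hax (h4 c hc x (Finset.mem_erase.2 ⟨hxb, hx⟩) hxS a ha)
  -- the components of the neighbours of `b` cover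
  let N : Finset (ℤ × ℤ) := (nbrs b).filter (fun c => c ∈ B.erase b)
  have hN : ∀ c, c ∈ N ↔ grid.Adj b c ∧ c ∈ B.erase b := by
    intro c; rw [Finset.mem_filter, mem_nbrs]
  have hcover : B.erase b ⊆ N.biUnion comp := by
    intro x hx
    obtain ⟨d, hd, hbd⟩ := h5 x hx
    have hdB : d ∈ B.erase b := h1 x hx hd
    rw [Finset.mem_biUnion]
    refine ⟨d, (hN d).2 ⟨hbd, hdB⟩, ?_⟩
    exact subset_of_closed (h2 x hx) (h1 x hx) (h4 d hdB) (h3 d hdB) hd (h3 x hx)
  have hNne : N.Nonempty := by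
    have : (B.erase b).Nonempty := by
      rw [← Finset.card_pos, Finset.card_erase_of_mem hb]; omega
    obtain ⟨x, hx⟩ := this
    have := hcover hx
    rw [Finset.mem_biUnion] at this
    obtain ⟨c, hc, _⟩ := this
    exact ⟨c, hc⟩
  obtain ⟨c, hcN, hmax⟩ := Finset.exists_max_image N (fun c => (comp c).card) hNne
  have hcard2 : B.card - 1 ≤ 4 * (comp c).card := by
    rw [← Finset.card_erase_of_mem hb]
    calc (B.erase b).card ≤ (N.biUnion comp).card := Finset.card_le_card hcover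
      _ ≤ ∑ d ∈ N, (comp d).card := Finset.card_biUnion_le
      _ ≤ ∑ _d ∈ N, (comp c).card := Finset.sum_le_sum hmax
      _ = N.card * (comp c).card := by simp
      _ ≤ 4 * (comp c).card := by
        apply Nat.mul_le_mul_right
        exact (Finset.card_filter_le _ _).trans (card_nbrs_le b)
  obtain ⟨hbc, hcB⟩ := (hN c).1 hcN
  have hDsub := h1 c hcB
  have hDconn := h2 c hcB
  have hcD := h3 c hcB
  have hDcl := h4 c hcB
  set D := comp c with hD
  have hbD : b ∉ D := fun h => by simpa using hDsub h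
  -- `B \ D` is connected
  have hBD : Conn (B \ D) := by
    refine ⟨⟨b, Finset.mem_sdiff.2 ⟨hb, hbD⟩⟩, ?_⟩
    -- a version for sets avoiding `b`
    have aux : ∀ S ⊆ B \ D, S.Nonempty → b ∉ S →
        ∃ a ∈ S, ∃ x ∈ B \ D, x ∉ S ∧ grid.Adj a x := by
      intro S hS hne hbS
      have hSB : S ⊆ B := hS.trans Finset.sdiff_subset
      obtain ⟨a, ha, x, hx, hxS, hax⟩ := hB.2 S hSB hne (by
        intro h; rw [h] at hbS; exact hbS hb)
      refine ⟨a, ha, x, ?_, hxS, hax⟩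
      rw [Finset.mem_sdiff]
      refine ⟨hx, ?_⟩
      intro hxD
      have haB : a ∈ B.erase b := by
        rw [Finset.mem_erase]
        refine ⟨?_, hSB ha⟩
        rintro rfl; exact hbS ha
      exact hDcl a haB (Finset.mem_sdiff.1 (hS ha)).2 x hxD hax.symm
    intro S hS hne hSA
    by_cases hbS : b ∈ S
    · have hne' : ((B \ D) \ S).Nonempty := by
        rw [Finset.nonempty_iff_ne_empty]
        intro h
        rw [Finset.sdiff_eq_empty_iff_subset] at h
        exact hSA (Finset.Subset.antisymm hS h)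
      obtain ⟨a, ha, x, hx, hxS, hax⟩ := aux ((B \ D) \ S) Finset.sdiff_subset hne'
        (fun h => (Finset.mem_sdiff.1 h).2 hbS)
      refine ⟨x, ?_, a, (Finset.mem_sdiff.1 ha).1, (Finset.mem_sdiff.1 ha).2, hax.symm⟩
      by_contra h
      exact hxS (Finset.mem_sdiff.2 ⟨hx, h⟩)
    · exact aux S hS hne hbS
  have hAD : A \ D = ((A \ B) ∪ {b}) ∪ (B \ D) := by
    ext x
    simp only [Finset.mem_sdiff, Finset.mem_union, Finset.mem_singleton]
    constructor
    · rintro ⟨hxA, hxD⟩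
      by_cases hxB : x ∈ B
      · right; exact ⟨hxB, hxD⟩
      · left; left; exact ⟨hxA, hxB⟩
    · rintro ((⟨hxA, hxB⟩ | rfl) | ⟨hxB, hxD⟩)
      · exact ⟨hxA, fun h => hxB ((Finset.mem_erase.1 (hDsub h)).2)⟩
      · exact ⟨hBA hb, hbD⟩
      · exact ⟨hBA hxB, hxD⟩
  have hADc : Conn (A \ D) := by
    rw [hAD]
    exact conn_union_of_mem hZ hBD (a := b) (by simp) (Finset.mem_sdiff.2 ⟨hb, hbD⟩)
  refine ⟨D, c, hDsub, hcD, hbc, hDconn, hADc, ?_, by omega⟩
  exact conn_union hADc (conn_singleton c) (Finset.mem_sdiff.2 ⟨hBA hb, hbD⟩)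
    (Finset.mem_singleton_self c) hbc

/-- Splitting a connected set of `n ≥ 2` cells into two connected sets of comparable size. -/
lemma split_exists {A : Finset (ℤ × ℤ)} (hA : Conn A) (hn : 2 ≤ A.card) :
    ∃ (D : Finset (ℤ × ℤ)) (b c : ℤ × ℤ), D ⊆ A ∧ c ∈ D ∧ b ∈ A \ D ∧ grid.Adj b c ∧ Conn D ∧
      Conn (A \ D) ∧ 2 * D.card ≤ A.card ∧ A.card ≤ 8 * D.card + 1 := by
  classical
  -- strong induction on the size of `B`
  have key : ∀ m : ℕ, ∀ (B : Finset (ℤ × ℤ)) (b : ℤ × ℤ), B.card = m → B ⊆ A → b ∈ B → Conn B →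
      Conn ((A \ B) ∪ {b}) → A.card < 2 * B.card →
      ∃ (D : Finset (ℤ × ℤ)) (b c : ℤ × ℤ), D ⊆ A ∧ c ∈ D ∧ b ∈ A \ D ∧ grid.Adj b c ∧ Conn D ∧
      Conn (A \ D) ∧ 2 * D.card ≤ A.card ∧ A.card ≤ 8 * D.card + 1 := by
    intro m
    induction m using Nat.strong_induction_on with
    | _ m ih =>
      intro B b hm hBA hb hB hZ hlt
      obtain ⟨D, c, hDsub, hcD, hbc, hDc, hADc, hZ', hcard⟩ := step hBA hb hB hZ (by omega)
      have hDB : D.card < B.card := by
        have := Finset.card_le_card hDsub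
        rw [Finset.card_erase_of_mem hb] at this
        omega
      have hDA : D ⊆ A := (hDsub.trans (Finset.erase_subset _ _)).trans hBA
      by_cases h : A.card < 2 * D.card
      · exact ih D.card (by omega) D c rfl hDA hcD hDc hZ' h
      · refine ⟨D, b, c, hDA, hcD, ?_, hbc, hDc, hADc, by omega, by omega⟩
        rw [Finset.mem_sdiff]
        refine ⟨hBA hb, fun hbD => ?_⟩
        simpa using hDsub hbD
  obtain ⟨b, hb⟩ := hA.1
  exact key A.card A b rfl (Finset.Subset.refl _) hb hA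
    (by simpa using conn_singleton b) (by omega)

end Pool.Agent.H42.Klarner
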