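import Pool.Agent.H42.KlarnerAnalysis

/-!
# Computability of the number of fixed polyominoes and of the upper bounds
-/

namespace Pool.Agent.H42.Klarner

open Primrec

/-- all sublists -/
def subs {α : Type} (l : List α) : List (List α) :=
  l.foldr (fun a L => L ++ L.map (fun s => a :: s)) [[]]

lemma subs_eq {α : Type} (l : List α) : subs l = l.sublists' := by
  induction l with
  | nil => rfl
  | cons a l ih =>
    rw [List.sublists'_cons, ← ih]
    rfl

lemma mem_subs {α : Type} {s l : List α} : s ∈ subs l ↔ s.Sublist l := by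
  rw [subs_eq, List.mem_sublists']

lemma primrec_subs {α : Type} [Primcodable α] : Primrec (subs : List α → List (List α)) := by
  unfold subs
  refine Primrec.list_foldr (f := fun l : List α => l) (g := fun _ : List α => ([[]] : List (List α)))
    (h := fun _ (p : α × List (List α)) => p.2 ++ p.2.map (fun s => p.1 :: s)) Primrec.id
    (Primrec.const _) ?_
  refine Primrec.list_append.comp₂ (Primrec.snd.comp₂ Primrec₂.right) ?_
  refine Primrec.list_map (Primrec.snd.comp Primrec.snd) ?_
  exact Primrec.list_cons.comp₂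
    ((Primrec.fst.comp (Primrec.snd.comp Primrec.fst)).to₂) Primrec₂.right

/-- the cells of the box `[0, n) × [0, n)` -/
def cells (n : ℕ) : List (ℕ × ℕ) :=
  (List.range n).flatMap (fun i => (List.range n).map (fun j => (i, j)))

lemma mem_cells {n : ℕ} {c : ℕ × ℕ} : c ∈ cells n ↔ c.1 < n ∧ c.2 < n := by
  obtain ⟨a, b⟩ := c
  unfold cells
  simp [List.mem_flatMap]

lemma nodup_cells (n : ℕ) : (cells n).Nodup := by
  have : cells n = (List.range n) ×ˢ (List.range n) := rfl
  rw [this]
  exact List.Nodup.product List.nodup_range List.nodup_range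

lemma primrec_cells : Primrec cells := by
  unfold cells
  refine Primrec.list_flatMap Primrec.list_range ?_
  refine Primrec.list_map (Primrec.list_range.comp Primrec.fst) ?_
  exact (Primrec.pair (Primrec.snd.comp Primrec.fst) Primrec.snd).to₂

/-- adjacency of cells with natural coordinates -/
def adjN (a b : ℕ × ℕ) : Prop :=
  (a.1 = b.1 ∧ (a.2 + 1 = b.2 ∨ b.2 + 1 = a.2)) ∨ (a.2 = b.2 ∧ (a.1 + 1 = b.1 ∨ b.1 + 1 = a.1))

lemma primrec_adjN : PrimrecRel adjN := by
  have a1 : Primrec (fun p : (ℕ × ℕ) × (ℕ × ℕ) => p.1.1) := Primrec.fst.comp Primrec.fst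
  have a2 : Primrec (fun p : (ℕ × ℕ) × (ℕ × ℕ) => p.1.2) := Primrec.snd.comp Primrec.fst
  have b1 : Primrec (fun p : (ℕ × ℕ) × (ℕ × ℕ) => p.2.1) := Primrec.fst.comp Primrec.snd
  have b2 : Primrec (fun p : (ℕ × ℕ) × (ℕ × ℕ) => p.2.2) := Primrec.snd.comp Primrec.snd
  exact ((Primrec.eq.comp a1 b1).and ((Primrec.eq.comp (Primrec.succ.comp a2) b2).or
    (Primrec.eq.comp (Primrec.succ.comp b2) a2))).or
    ((Primrec.eq.comp a2 b2).and ((Primrec.eq.comp (Primrec.succ.comp a1) b1).or
    (Primrec.eq.comp (Primrec.succ.comp b1) a1)))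

/-- there is an edge from `s` to `l \ s` -/
def crossP (s l : List (ℕ × ℕ)) : Prop := ∃ a ∈ s, ∃ b ∈ l, (¬ ∃ x ∈ s, x = b) ∧ adjN a b

lemma primrec_crossP : PrimrecRel crossP := by
  unfold crossP
  -- innermost relation, as a relation between `b` and `(a, s)`
  have h1 : PrimrecRel (fun (b : ℕ × ℕ) (q : (ℕ × ℕ) × List (ℕ × ℕ)) =>
      (¬ ∃ x ∈ q.2, x = b) ∧ adjN q.1 b) := by
    have e1 : PrimrecPred (fun p : (ℕ × ℕ) × ((ℕ × ℕ) × List (ℕ × ℕ)) =>
        ∃ x ∈ p.2.2, x = p.1) := by
      have := PrimrecRel.exists_mem_list (α := ℕ × ℕ) (β := ℕ × ℕ) (R := fun x b => x = b)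
        Primrec.eq
      exact this.comp (Primrec.snd.comp Primrec.snd) Primrec.fst
    have e2 : PrimrecPred (fun p : (ℕ × ℕ) × ((ℕ × ℕ) × List (ℕ × ℕ)) => adjN p.2.1 p.1) :=
      primrec_adjN.comp (Primrec.fst.comp Primrec.snd) Primrec.fst
    exact e1.not.and e2
  have h2 : PrimrecRel (fun (l : List (ℕ × ℕ)) (q : (ℕ × ℕ) × List (ℕ × ℕ)) =>
      ∃ b ∈ l, (¬ ∃ x ∈ q.2, x = b) ∧ adjN q.1 b) := PrimrecRel.exists_mem_list h1
  have h3 : PrimrecRel (fun (a : ℕ × ℕ) (q : List (ℕ × ℕ) × List (ℕ × ℕ)) =>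
      ∃ b ∈ q.2, (¬ ∃ x ∈ q.1, x = b) ∧ adjN a b) :=
    h2.comp (Primrec.snd.comp Primrec.snd)
      (Primrec.pair Primrec.fst (Primrec.fst.comp Primrec.snd))
  have h4 : PrimrecRel (fun (s : List (ℕ × ℕ)) (q : List (ℕ × ℕ) × List (ℕ × ℕ)) =>
      ∃ a ∈ s, ∃ b ∈ q.2, (¬ ∃ x ∈ q.1, x = b) ∧ adjN a b) := PrimrecRel.exists_mem_list h3
  exact h4.comp Primrec.fst (Primrec.pair Primrec.fst Primrec.snd)

/-- connectedness of a list of cells -/
def connL (l : List (ℕ × ℕ)) : Prop :=
  ∀ s ∈ subs l, s.length = 0 ∨ s.length = l.length ∨ crossP s l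

lemma primrec_connL : PrimrecPred connL := by
  unfold connL
  have h1 : PrimrecRel (fun (s l : List (ℕ × ℕ)) =>
      s.length = 0 ∨ s.length = l.length ∨ crossP s l) := by
    refine PrimrecPred.or (Primrec.eq.comp (Primrec.list_length.comp Primrec.fst)
      (Primrec.const 0)) (PrimrecPred.or (Primrec.eq.comp (Primrec.list_length.comp Primrec.fst)
      (Primrec.list_length.comp Primrec.snd)) primrec_crossP)
  exact (PrimrecRel.forall_mem_list h1).comp primrec_subs Primrec.id

/-- the list `l` represents a normalised `n`-omino -/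
def goodL (l : List (ℕ × ℕ)) (n : ℕ) : Prop :=
  l.length = n ∧ (∃ a ∈ l, a.1 = 0) ∧ (∃ a ∈ l, a.2 = 0) ∧ connL l

lemma primrec_goodL : PrimrecRel goodL := by
  unfold goodL
  refine PrimrecPred.and (Primrec.eq.comp (Primrec.list_length.comp Primrec.fst) Primrec.snd) ?_
  refine PrimrecPred.and ?_ (PrimrecPred.and ?_ ?_)
  · have : PrimrecPred (fun l : List (ℕ × ℕ) => ∃ a ∈ l, a.1 = 0) :=
      PrimrecPred.exists_mem_list (Primrec.eq.comp Primrec.fst (Primrec.const 0))
    exact this.comp Primrec.fst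
  · have : PrimrecPred (fun l : List (ℕ × ℕ) => ∃ a ∈ l, a.2 = 0) :=
      PrimrecPred.exists_mem_list (Primrec.eq.comp Primrec.snd (Primrec.const 0))
    exact this.comp Primrec.fst
  · exact primrec_connL.comp Primrec.fst

open Classical in
/-- the counting algorithm -/
noncomputable def T (n : ℕ) : ℕ := ((subs (cells n)).filter (fun l => goodL l n)).length

lemma primrec_T : Primrec T := by
  classical
  unfold T
  have h : Primrec₂ (fun (L : List (List (ℕ × ℕ))) (n : ℕ) => L.filter (fun l => goodL l n)) :=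
    PrimrecRel.listFilter primrec_goodL
  exact Primrec.list_length.comp (h.comp (primrec_subs.comp primrec_cells) Primrec.id)

/-! ### correctness of the algorithm -/

/-- inclusion of the cells with natural coordinates -/
def cast (c : ℕ × ℕ) : ℤ × ℤ := ((c.1 : ℤ), (c.2 : ℤ))

lemma cast_inj : Function.Injective cast := by
  rintro ⟨a, b⟩ ⟨c, d⟩ h
  unfold cast at h
  simp only [Prod.mk.injEq, Nat.cast_inj] at h
  exact Prod.ext h.1 h.2

lemma adj_cast (a b : ℕ × ℕ) : grid.Adj (cast a) (cast b) ↔ adjN a b := by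
  obtain ⟨a1, a2⟩ := a
  obtain ⟨b1, b2⟩ := b
  rw [adj_iff]
  unfold cast adjN
  simp only
  rcases abs_cases ((a1 : ℤ) - b1) with ⟨e1, _⟩ | ⟨e1, _⟩ <;>
  rcases abs_cases ((a2 : ℤ) - b2) with ⟨e2, _⟩ | ⟨e2, _⟩ <;> rw [e1, e2] <;> omega

/-- the set of cells of a list -/
def toSet (s : List (ℕ × ℕ)) : Finset (ℤ × ℤ) := s.toFinset.image cast

lemma mem_toSet {s : List (ℕ × ℕ)} {p : ℤ × ℤ} : p ∈ toSet s ↔ ∃ c ∈ s, cast c = p := by
  unfold toSet
  rw [Finset.mem_image]
  simp only [List.mem_toFinset]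

lemma cast_mem_toSet {s : List (ℕ × ℕ)} {c : ℕ × ℕ} : cast c ∈ toSet s ↔ c ∈ s := by
  rw [mem_toSet]
  constructor
  · rintro ⟨d, hd, h⟩; rw [← cast_inj h]; exact hd
  · intro h; exact ⟨c, h, rfl⟩

lemma card_toSet {s : List (ℕ × ℕ)} (h : s.Nodup) : (toSet s).card = s.length := by
  unfold toSet
  rw [Finset.card_image_of_injective _ cast_inj, List.toFinset_card_of_nodup h]

lemma conn_toSet {s : List (ℕ × ℕ)} (hs : s.Nodup) (hne : s ≠ []) :
    Conn (toSet s) ↔ connL s := by
  classical
  constructor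
  · intro h s' hs'
    rw [mem_subs] at hs'
    by_cases h0 : s'.length = 0
    · left; exact h0
    right
    by_cases h1 : s'.length = s.length
    · left; exact h1
    right
    have hnd' : s'.Nodup := hs.sublist hs'
    obtain ⟨a, ha, b, hb, hbS, hab⟩ := h.2 (toSet s') (by
        intro p hp
        rw [mem_toSet] at hp ⊢
        obtain ⟨c, hc, h⟩ := hp
        exact ⟨c, hs'.subset hc, h⟩)
      (by
        rw [← Finset.card_pos, card_toSet hnd']; omega)
      (by
        intro he
        apply h1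
        rw [← card_toSet hnd', ← card_toSet hs, he])
    rw [mem_toSet] at ha hb
    obtain ⟨a', ha', rfl⟩ := ha
    obtain ⟨b', hb', rfl⟩ := hb
    rw [cast_mem_toSet] at hbS
    refine ⟨a', ha', b', hb', ?_, (adj_cast _ _).1 hab⟩
    rintro ⟨x, hx, rfl⟩
    exact hbS hx
  · intro h
    refine ⟨?_, ?_⟩
    · rw [← Finset.card_pos, card_toSet hs]
      exact List.length_pos_of_ne_nil hne
    · intro S hS hSne hSs
      let s' := s.filter (fun c => cast c ∈ S)
      have hs' : s'.Sublist s := List.filter_sublist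
      have hmem : ∀ c, c ∈ s' ↔ c ∈ s ∧ cast c ∈ S := by
        intro c; simp [s']
      rcases h s' (mem_subs.2 hs') with h0 | h0 | h0
      · exfalso
        obtain ⟨p, hp⟩ := hSne
        have := hS hp
        rw [mem_toSet] at this
        obtain ⟨c, hc, rfl⟩ := this
        have h2 : c ∈ s' := (hmem c).2 ⟨hc, hp⟩
        rw [List.length_eq_zero_iff] at h0
        rw [h0] at h2
        simp at h2
      · exfalso
        have he : s' = s := hs'.eq_of_length h0
        apply hSs
        apply Finset.Subset.antisymm hS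
        intro p hp
        rw [mem_toSet] at hp
        obtain ⟨c, hc, rfl⟩ := hp
        rw [← he] at hc
        exact ((hmem c).1 hc).2
      · obtain ⟨a, ha, b, hb, hbs, hab⟩ := h0
        refine ⟨cast a, ((hmem a).1 ha).2, cast b, cast_mem_toSet.2 hb, ?_,
          (adj_cast a b).2 hab⟩
        intro hbS
        exact hbs ⟨b, (hmem b).2 ⟨hb, hbS⟩, rfl⟩

lemma filter_mem_of_sublist {α : Type} [DecidableEq α] {s l : List α} (h : s.Sublist l)
    (hl : l.Nodup) : l.filter (fun a => a ∈ s) = s := by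
  induction h with
  | slnil => rfl
  | @cons s l a hsl ih =>
    rw [List.nodup_cons] at hl
    rw [List.filter_cons]
    have : a ∉ s := fun h => hl.1 (hsl.subset h)
    simp only [this, decide_false, Bool.false_eq_true, if_false]
    exact ih hl.2
  | @cons_cons s l a hsl ih =>
    rw [List.nodup_cons] at hl
    rw [List.filter_cons]
    simp only [List.mem_cons, true_or, decide_true, if_true]
    congr 1
    rw [← ih hl.2]
    apply List.filter_congr
    intro x hx
    have hxa : x ≠ a := by rintro rfl; exact hl.1 hx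
    rw [ih hl.2]
    simp [hxa]

lemma T_eq (n : ℕ) : T n = t n := by
  classical
  rw [t_eq]
  unfold T
  have hnd : ((subs (cells n)).filter (fun l => goodL l n)).Nodup := by
    apply List.Nodup.filter
    rw [subs_eq]
    exact List.nodup_sublists'.2 (nodup_cells n)
  rw [← List.toFinset_card_of_nodup hnd]
  have hmem : ∀ s, s ∈ ((subs (cells n)).filter (fun l => goodL l n)).toFinset ↔
      s.Sublist (cells n) ∧ goodL s n := by
    intro s
    rw [List.mem_toFinset, List.mem_filter, mem_subs]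
    simp
  apply Finset.card_bij (fun s _ => toSet s)
  · intro s hs
    rw [hmem] at hs
    obtain ⟨hsub, hlen, ⟨a, ha, ha0⟩, ⟨b, hb, hb0⟩, hconn⟩ := hs
    have hsnd : s.Nodup := (nodup_cells n).sublist hsub
    rw [mem_X]
    refine ⟨by rw [card_toSet hsnd, hlen], ?_, ?_⟩
    · rw [conn_toSet hsnd (List.ne_nil_of_mem ha)]
      exact hconn
    · refine ⟨?_, ?_, ?_⟩
      · intro p hp
        rw [mem_toSet] at hp
        obtain ⟨c, hc, rfl⟩ := hp
        unfold cast
        simp
      · exact ⟨cast a, cast_mem_toSet.2 ha, by unfold cast; simp [ha0]⟩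
      · exact ⟨cast b, cast_mem_toSet.2 hb, by unfold cast; simp [hb0]⟩
  · intro s hs s' hs' he
    rw [hmem] at hs hs'
    have hiff : ∀ c, c ∈ s ↔ c ∈ s' := by
      intro c
      rw [← cast_mem_toSet, ← cast_mem_toSet, he]
    rw [← filter_mem_of_sublist hs.1 (nodup_cells n), ← filter_mem_of_sublist hs'.1 (nodup_cells n)]
    apply List.filter_congr
    intro x _
    exact decide_eq_decide.2 (hiff x)
  · intro A hA
    have hA' := mem_X.1 hA
    obtain ⟨hcard, hconn, hnrm⟩ := hA'
    let s := (cells n).filter (fun c => cast c ∈ A)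
    have hsub : s.Sublist (cells n) := List.filter_sublist
    have hsnd : s.Nodup := (nodup_cells n).sublist hsub
    have hsmem : ∀ c, c ∈ s ↔ c ∈ cells n ∧ cast c ∈ A := by
      intro c; simp [s]
    have hset : toSet s = A := by
      ext p
      rw [mem_toSet]
      constructor
      · rintro ⟨c, hc, rfl⟩
        exact ((hsmem c).1 hc).2
      · intro hp
        obtain ⟨h1, h2⟩ := nrm_box hconn hnrm hp
        obtain ⟨h3, h4⟩ := hnrm.1 p hp
        rw [hcard] at h1 h2
        have hc : cast (p.1.toNat, p.2.toNat) = p := by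
          unfold cast
          apply Prod.ext
          · simp only; omega
          · simp only; omega
        refine ⟨(p.1.toNat, p.2.toNat), (hsmem _).2 ⟨mem_cells.2 ⟨?_, ?_⟩, by rw [hc]; exact hp⟩, hc⟩
        · simp only; omega
        · simp only; omega
    refine ⟨s, ?_, hset⟩
    rw [hmem]
    have hne : s ≠ [] := by
      intro h
      rw [h] at hset
      have := hconn.1
      rw [← hset] at this
      simp [toSet] at this
    refine ⟨hsub, ?_, ?_, ?_, ?_⟩
    · rw [← card_toSet hsnd, hset, hcard]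
    · obtain ⟨p, hp, hp0⟩ := hnrm.2.1
      rw [← hset, mem_toSet] at hp
      obtain ⟨c, hc, rfl⟩ := hp
      refine ⟨c, hc, ?_⟩
      unfold cast at hp0
      simpa using hp0
    · obtain ⟨p, hp, hp0⟩ := hnrm.2.2
      rw [← hset, mem_toSet] at hp
      obtain ⟨c, hc, rfl⟩ := hp
      refine ⟨c, hc, ?_⟩
      unfold cast at hp0
      simpa using hp0
    · rw [← conn_toSet hsnd hne, hset]
      exact hconn

/-! ### computability of the upper bounds -/

lemma primrec_t : Primrec t := primrec_T.of_eq T_eq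

lemma primrec_pow : Primrec₂ ((· ^ ·) : ℕ → ℕ → ℕ) :=
  Primrec₂.unpaired'.1 Nat.Primrec.pow

lemma primrec_g : Primrec g := by
  unfold g
  refine Primrec.nat_mul.comp (Primrec.nat_mul.comp (Primrec.const _)
    (primrec_pow.comp Primrec.id (Primrec.const 3))) primrec_t

lemma primrec_term : Primrec₂ (fun (m k : ℕ) => g k * 2 ^ (m * k)) :=
  Primrec.nat_mul.comp (primrec_g.comp Primrec.snd)
    (primrec_pow.comp (Primrec.const 2) (Primrec.nat_mul.comp Primrec.fst Primrec.snd))

lemma primrec_cond : PrimrecRel cond := by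
  have h1 : PrimrecRel (fun (k : ℕ) (q : ℕ × ℕ) => k < q.1 ∨ g k * 2 ^ (q.1 * k) ≤ q.2 ^ k) := by
    refine PrimrecPred.or (Primrec.nat_lt.comp Primrec.fst (Primrec.fst.comp Primrec.snd)) ?_
    refine Primrec.nat_le.comp ?_ ?_
    · exact primrec_term.comp (Primrec.fst.comp Primrec.snd) Primrec.fst
    · exact primrec_pow.comp (Primrec.snd.comp Primrec.snd) Primrec.fst
  have h2 := PrimrecRel.forall_mem_list h1
  have h3 : PrimrecRel (fun (m j : ℕ) => ∀ k ∈ List.range (8 * m + 1),
      k < m ∨ g k * 2 ^ (m * k) ≤ j ^ k) := by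
    refine h2.comp (f := fun p : ℕ × ℕ => List.range (8 * p.1 + 1)) (g := fun p => (p.1, p.2))
      ?_ ?_
    · exact Primrec.list_range.comp (Primrec.succ.comp
        (Primrec.nat_mul.comp (Primrec.const 8) Primrec.fst))
    · exact Primrec.pair Primrec.fst Primrec.snd
  refine h3.of_eq ?_
  intro m j
  unfold cond
  constructor
  · intro h k hk1 hk2
    rcases h k (List.mem_range.2 (by omega)) with h' | h'
    · omega
    · exact h'
  · intro h k hk
    rw [List.mem_range] at hk
    by_cases hkm : k < m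
    · left; exact hkm
    · right; exact h k (by omega) (by omega)

/-- a primitive recursive bound for `J` -/
noncomputable def bnd (m : ℕ) : ℕ :=
  (List.range (8 * m + 1)).foldr (fun k s => g k * 2 ^ (m * k) + s) 0 + 1

lemma primrec_bnd : Primrec bnd := by
  unfold bnd
  refine Primrec.succ.comp ?_
  refine Primrec.list_foldr (f := fun m : ℕ => List.range (8 * m + 1)) (g := fun _ : ℕ => 0)
    (h := fun (m : ℕ) (p : ℕ × ℕ) => g p.1 * 2 ^ (m * p.1) + p.2) ?_ (Primrec.const 0) ?_
  · exact Primrec.list_range.comp (Primrec.succ.comp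
      (Primrec.nat_mul.comp (Primrec.const 8) Primrec.id))
  · exact Primrec.nat_add.comp (primrec_term.comp Primrec.fst (Primrec.fst.comp Primrec.snd))
      (Primrec.snd.comp Primrec.snd)

lemma le_foldr (f : ℕ → ℕ) (l : List ℕ) {k : ℕ} (hk : k ∈ l) :
    f k ≤ l.foldr (fun k s => f k + s) 0 := by
  induction l with
  | nil => simp at hk
  | cons a l ih =>
    rw [List.foldr_cons]
    rcases List.mem_cons.1 hk with h | h
    · subst h; omega
    · have := ih h; omega

lemma cond_bnd (m : ℕ) : cond m (bnd m) := by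
  intro k hk1 hk2
  rcases Nat.eq_zero_or_pos k with hk | hk
  · subst hk
    simp [g]
  · have h1 : g k * 2 ^ (m * k) ≤ bnd m := by
      unfold bnd
      have := le_foldr (fun k => g k * 2 ^ (m * k)) (List.range (8 * m + 1)) (k := k)
        (List.mem_range.2 (by omega))
      omega
    calc g k * 2 ^ (m * k) ≤ bnd m ^ 1 := by rw [pow_one]; exact h1
      _ ≤ bnd m ^ k := Nat.pow_le_pow_right (by unfold bnd; omega) hk

lemma J_eq_iff (m j : ℕ) : J m = j ↔ cond m j ∧ ∀ i < j, ¬ cond m i := by
  classical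
  have hex : ∃ j, cond m j := ⟨bnd m, cond_bnd m⟩
  unfold J
  rw [dif_pos hex]
  exact Nat.find_eq_iff hex

lemma primrec_J : Primrec J := by
  apply Primrec.of_graph
  · exact ⟨bnd, primrec_bnd, fun m => J_le (cond_bnd m)⟩
  · have h1 : PrimrecRel (fun (j m : ℕ) => ∀ i < j, ¬ cond m i) := by
      refine PrimrecRel.forall_lt (R := fun i m => ¬ cond m i) ?_
      exact (primrec_cond.comp Primrec.snd Primrec.fst).not
    have h2 : PrimrecRel (fun (m j : ℕ) => cond m j ∧ ∀ i < j, ¬ cond m i) :=
      PrimrecPred.and primrec_cond (h1.comp Primrec.snd Primrec.fst)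
    exact h2.of_eq (fun m j => (J_eq_iff m j).symm)

lemma beta_computable : ComputableRatSeq beta := by
  refine ⟨fun n => J (n + 1) + 1, fun n => 2 ^ (n + 1), ?_, ?_, ?_⟩
  · exact (Primrec.succ.comp (primrec_J.comp Primrec.succ)).to_comp
  · exact (primrec_pow.comp (Primrec.const 2) Primrec.succ).to_comp
  · intro n
    exact ⟨by positivity, rfl⟩

lemma upNum_eq (m : ℕ) : upNum m = J m := by
  classical
  have hset : {j : ℕ | ∀ k, m ≤ k → k ≤ 8 * m → 5832 * k ^ 3 * t k * (2 ^ m) ^ k ≤ j ^ k} =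
      {j : ℕ | cond m j} := by
    ext j
    simp only [Set.mem_setOf_eq, cond, g, pow_mul]
  unfold upNum
  rw [hset]
  symm
  rw [J_eq_iff]
  have hne : ({j : ℕ | cond m j}).Nonempty := ⟨bnd m, cond_bnd m⟩
  refine ⟨Nat.sInf_mem hne, ?_⟩
  intro i hi hc
  exact absurd (Nat.sInf_le (s := {j : ℕ | cond m j}) hc) (by omega)

lemma upBound_eq : upBound = beta := by
  funext n
  unfold upBound beta
  rw [upNum_eq]
  push_cast
  rfl

end Pool.Agent.H42.Klarner
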