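import Pool.Agent.H42.KlarnerComb

/-!
# Counting fixed polyominoes: normal forms, almost submultiplicativity, supermultiplicativity
-/

namespace Pool.Agent.H42.Klarner

open Finset

/-- normalised sets: the minimal coordinates are `0` -/
def Nrm (A : Finset (ℤ × ℤ)) : Prop :=
  (∀ a ∈ A, 0 ≤ a.1 ∧ 0 ≤ a.2) ∧ (∃ a ∈ A, a.1 = 0) ∧ (∃ a ∈ A, a.2 = 0)

lemma exists_nrm {A : Finset (ℤ × ℤ)} (hA : A.Nonempty) : ∃ v, Nrm (shift v A) := by
  obtain ⟨a, ha, hamin⟩ := Finset.exists_min_image A (fun p => p.1) hA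
  obtain ⟨b, hb, hbmin⟩ := Finset.exists_min_image A (fun p => p.2) hA
  refine ⟨(-a.1, -b.2), ?_, ?_, ?_⟩
  · intro p hp
    rw [mem_shift] at hp
    have h1 := hamin _ hp
    have h2 := hbmin _ hp
    simp only [Prod.fst_sub, Prod.snd_sub] at h1 h2
    constructor <;> linarith
  · exact ⟨a + (-a.1, -b.2), add_mem_shift ha, by simp⟩
  · exact ⟨b + (-a.1, -b.2), add_mem_shift hb, by simp⟩

lemma nrm_unique {A : Finset (ℤ × ℤ)} {v : ℤ × ℤ} (h : Nrm A) (h' : Nrm (shift v A)) : v = 0 := by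
  obtain ⟨h1, ⟨a, ha, ha0⟩, ⟨b, hb, hb0⟩⟩ := h
  obtain ⟨h1', ⟨a', ha', ha0'⟩, ⟨b', hb', hb0'⟩⟩ := h'
  have e1 := h1' _ (add_mem_shift (v := v) ha)
  have e2 := h1' _ (add_mem_shift (v := v) hb)
  rw [mem_shift] at ha' hb'
  have e3 := h1 _ ha'
  have e4 := h1 _ hb'
  simp only [Prod.fst_add, Prod.snd_add, Prod.fst_sub, Prod.snd_sub] at e1 e2 e3 e4
  apply Prod.ext
  · simp only [Prod.fst_zero]; omega
  · simp only [Prod.snd_zero]; omega

/-- connected normalised sets lie in a box -/
lemma nrm_box {A : Finset (ℤ × ℤ)} (hA : Conn A) (hN : Nrm A) {p : ℤ × ℤ} (hp : p ∈ A) :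
    p.1 < A.card ∧ p.2 < A.card := by
  classical
  -- general statement for a coordinate `f` which changes by at most one along edges
  have key : ∀ f : ℤ × ℤ → ℤ, (∀ a b, grid.Adj a b → |f a - f b| ≤ 1) → (∀ a ∈ A, 0 ≤ f a) →
      (∃ a ∈ A, f a = 0) → ∀ p ∈ A, f p < A.card := by
    intro f hf hf0 hfz p hp
    by_contra hge
    push Not at hge
    -- some value `v` in `[0, f p]` is not attained
    have hcard : (A.image f).card ≤ A.card := Finset.card_image_le
    have hlt : (A.image f).card < (Finset.Icc 0 (f p)).card := by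
      rw [Int.card_Icc]; omega
    obtain ⟨v, hv, hvA⟩ := Finset.exists_mem_notMem_of_card_lt_card hlt
    rw [Finset.mem_Icc] at hv
    have hvA' : ∀ a ∈ A, f a ≠ v := by
      intro a ha h
      exact hvA (Finset.mem_image.2 ⟨a, ha, h⟩)
    obtain ⟨a0, ha0, hfa0⟩ := hfz
    have hvpos : 0 < v := by
      rcases lt_or_eq_of_le hv.1 with h | h
      · exact h
      · exact absurd (hfa0.trans h) (hvA' a0 ha0)
    have hvp : v < f p := by
      rcases lt_or_eq_of_le hv.2 with h | h
      · exact h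
      · exact absurd h.symm (hvA' p hp)
    obtain ⟨a, ha, b, hb, hbS, hab⟩ := hA.2 (A.filter (fun a => f a < v))
      (Finset.filter_subset _ _) ⟨a0, Finset.mem_filter.2 ⟨ha0, by omega⟩⟩ (by
        intro h
        rw [← h] at hp
        have := (Finset.mem_filter.1 hp).2
        omega)
    have h1 := (Finset.mem_filter.1 ha).2
    have h2 : v ≤ f b := by
      by_contra hc
      exact hbS (Finset.mem_filter.2 ⟨hb, by omega⟩)
    have h3 := hf a b hab
    have h4 := hvA' b hb
    rw [abs_le] at h3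
    omega
  constructor
  · refine key (fun q => q.1) ?_ (fun a ha => (hN.1 a ha).1) hN.2.1 p hp
    intro a b hab
    rw [adj_iff] at hab
    have := abs_nonneg (a.2 - b.2)
    show |a.1 - b.1| ≤ 1
    omega
  · refine key (fun q => q.2) ?_ (fun a ha => (hN.1 a ha).2) hN.2.2 p hp
    intro a b hab
    rw [adj_iff] at hab
    have := abs_nonneg (a.1 - b.1)
    show |a.2 - b.2| ≤ 1
    omega

open Classical in
/-- the finite set of normalised `n`-ominoes -/
noncomputable def X (n : ℕ) : Finset (Finset (ℤ × ℤ)) :=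
  ((Finset.Ico (0 : ℤ) n ×ˢ Finset.Ico (0 : ℤ) n).powerset).filter
    (fun A => A.card = n ∧ Conn A ∧ Nrm A)

lemma mem_X {n : ℕ} {A : Finset (ℤ × ℤ)} : A ∈ X n ↔ A.card = n ∧ Conn A ∧ Nrm A := by
  classical
  unfold X
  rw [Finset.mem_filter]
  constructor
  · exact fun h => h.2
  · intro h
    refine ⟨?_, h⟩
    rw [Finset.mem_powerset]
    intro p hp
    obtain ⟨h1, h2⟩ := nrm_box h.2.1 h.2.2 hp
    obtain ⟨h3, h4⟩ := h.2.2.1 p hp
    rw [h.1] at h1 h2
    rw [Finset.mem_product, Finset.mem_Ico, Finset.mem_Ico]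
    exact ⟨⟨h3, h1⟩, ⟨h4, h2⟩⟩

lemma t_eq (n : ℕ) : t n = (X n).card := by
  unfold t
  have : Nat.card (X n) = (X n).card := by simp
  rw [← this]
  symm
  refine Nat.card_eq_of_bijective
    (fun A : X n => (Quotient.mk (transSetoid n) ⟨A.1, (isOmino_iff n A.1).2
      ⟨(mem_X.1 A.2).1, (mem_X.1 A.2).2.1⟩⟩)) ⟨?_, ?_⟩
  · rintro ⟨A, hA⟩ ⟨B, hB⟩ h
    simp only at h
    obtain ⟨v, hv⟩ := Quotient.exact h
    simp only at hv
    rw [mem_X] at hA hB
    have := nrm_unique hA.2.2 (hv ▸ hB.2.2)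
    subst this
    rw [shift_zero] at hv
    exact Subtype.ext hv.symm
  · intro q
    obtain ⟨⟨A, hA⟩, rfl⟩ := Quotient.exists_rep q
    have hA' := (isOmino_iff n A).1 hA
    obtain ⟨v, hv⟩ := exists_nrm hA'.2.1
    refine ⟨⟨shift v A, mem_X.2 ⟨by rw [card_shift]; exact hA'.1, conn_shift hA'.2, hv⟩⟩, ?_⟩
    apply Quotient.sound
    refine ⟨-v, ?_⟩
    simp only
    rw [shift_shift, add_neg_cancel, shift_zero]

/-! ### almost submultiplicativity -/

open Classical in
/-- translate a nonempty set to its normal form -/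
noncomputable def nf (A : Finset (ℤ × ℤ)) : Finset (ℤ × ℤ) :=
  if h : A.Nonempty then shift (exists_nrm h).choose A else A

lemma nf_nrm {A : Finset (ℤ × ℤ)} (h : A.Nonempty) : Nrm (nf A) := by
  unfold nf
  rw [dif_pos h]
  exact (exists_nrm h).choose_spec

lemma nf_shift_eq {A : Finset (ℤ × ℤ)} (h : A.Nonempty) : ∃ v, nf A = shift v A := by
  unfold nf
  rw [dif_pos h]
  exact ⟨_, rfl⟩

lemma nf_eq_of_nrm {A : Finset (ℤ × ℤ)} {v : ℤ × ℤ} (hA : Nrm A) (hne : A.Nonempty) :
    nf (shift v A) = A := by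
  obtain ⟨w, hw⟩ := nf_shift_eq (shift_nonempty (v := v) hne)
  have h1 := nf_nrm (shift_nonempty (v := v) hne)
  rw [hw, shift_shift] at h1
  have := nrm_unique hA h1
  rw [hw, shift_shift, this, shift_zero]

/-- the index set for the sizes of the smaller part -/
def idx (n : ℕ) : Finset ℕ := (Finset.range (n + 1)).filter (fun k => 2 * k ≤ n ∧ n ≤ 8 * k + 1)

lemma mem_idx {n k : ℕ} : k ∈ idx n ↔ 2 * k ≤ n ∧ n ≤ 8 * k + 1 := by
  unfold idx
  rw [Finset.mem_filter, Finset.mem_range]
  constructor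
  · exact fun h => h.2
  · intro h; exact ⟨by omega, h⟩

/-- the gluing construction -/
noncomputable def glue (B C : Finset (ℤ × ℤ)) (b c d : ℤ × ℤ) : Finset (ℤ × ℤ) :=
  nf (B ∪ shift (b + d - c) C)

lemma X_subset {n : ℕ} (hn : 2 ≤ n) :
    X n ⊆ (idx n).biUnion (fun k => (X k).biUnion (fun C => (X (n - k)).biUnion (fun B =>
      C.biUnion (fun c => B.biUnion (fun b => (nbrs 0).image (fun d => glue B C b c d)))))) := by
  intro A hA
  rw [mem_X] at hA
  obtain ⟨hcard, hconn, hnrm⟩ := hA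
  obtain ⟨D, b, c, hDA, hcD, hbAD, hbc, hDc, hADc, h1, h2⟩ := split_exists hconn (by omega)
  obtain ⟨v, hv⟩ := exists_nrm hDc.1
  obtain ⟨w, hw⟩ := exists_nrm hADc.1
  rw [hcard] at h1 h2
  rw [Finset.mem_biUnion]
  refine ⟨D.card, mem_idx.2 ⟨h1, h2⟩, ?_⟩
  rw [Finset.mem_biUnion]
  refine ⟨shift v D, mem_X.2 ⟨card_shift _ _, conn_shift hDc, hv⟩, ?_⟩
  rw [Finset.mem_biUnion]
  refine ⟨shift w (A \ D), mem_X.2 ⟨?_, conn_shift hADc, hw⟩, ?_⟩
  · rw [card_shift, Finset.card_sdiff_of_subset hDA, hcard]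
  rw [Finset.mem_biUnion]
  refine ⟨c + v, add_mem_shift hcD, ?_⟩
  rw [Finset.mem_biUnion]
  refine ⟨b + w, add_mem_shift hbAD, ?_⟩
  rw [Finset.mem_image]
  refine ⟨c - b, ?_, ?_⟩
  · rw [mem_nbrs]
    rw [adj_iff] at hbc ⊢
    simp only [Prod.fst_zero, Prod.snd_zero, Prod.fst_sub, Prod.snd_sub]
    rw [show (0 : ℤ) - (c.1 - b.1) = b.1 - c.1 by ring,
      show (0 : ℤ) - (c.2 - b.2) = b.2 - c.2 by ring]
    exact hbc
  · unfold glue
    rw [shift_shift]
    rw [show v + (b + w + (c - b) - (c + v)) = w by abel]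
    rw [← shift_union]
    rw [Finset.sdiff_union_of_subset hDA]
    exact nf_eq_of_nrm hnrm hconn.1

lemma card_X_le {n : ℕ} (hn : 2 ≤ n) :
    (X n).card ≤ ∑ k ∈ idx n, (X k).card * ((X (n - k)).card * (k * ((n - k) * 4))) := by
  refine (Finset.card_le_card (X_subset hn)).trans ?_
  refine Finset.card_biUnion_le.trans ?_
  apply Finset.sum_le_sum
  intro k _
  refine Finset.card_biUnion_le.trans ?_
  have : ∀ C ∈ X k, ((X (n - k)).biUnion (fun B =>
      C.biUnion (fun c => B.biUnion (fun b => (nbrs 0).image (fun d => glue B C b c d))))).card ≤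
      (X (n - k)).card * (k * ((n - k) * 4)) := by
    intro C hC
    refine Finset.card_biUnion_le.trans ?_
    have : ∀ B ∈ X (n - k), (C.biUnion (fun c => B.biUnion (fun b =>
        (nbrs 0).image (fun d => glue B C b c d)))).card ≤ k * ((n - k) * 4) := by
      intro B hB
      refine Finset.card_biUnion_le.trans ?_
      have : ∀ c ∈ C, (B.biUnion (fun b =>
        (nbrs 0).image (fun d => glue B C b c d))).card ≤ (n - k) * 4 := by
        intro c _
        refine Finset.card_biUnion_le.trans ?_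
        have : ∀ b ∈ B, ((nbrs 0).image (fun d => glue B C b c d)).card ≤ 4 := by
          intro b _
          exact Finset.card_image_le.trans (card_nbrs_le 0)
        refine (Finset.sum_le_sum this).trans ?_
        rw [Finset.sum_const, (mem_X.1 hB).1, smul_eq_mul]
      refine (Finset.sum_le_sum this).trans ?_
      rw [Finset.sum_const, (mem_X.1 hC).1, smul_eq_mul]
    refine (Finset.sum_le_sum this).trans ?_
    rw [Finset.sum_const, smul_eq_mul]
  refine (Finset.sum_le_sum this).trans ?_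
  rw [Finset.sum_const, smul_eq_mul]

/-! ### supermultiplicativity -/

/-- strict lexicographic order -/
def llt (p q : ℤ × ℤ) : Prop := p.1 < q.1 ∨ (p.1 = q.1 ∧ p.2 < q.2)

lemma llt_trans {p q r : ℤ × ℤ} (h1 : llt p q) (h2 : llt q r) : llt p r := by
  unfold llt at *; omega

lemma llt_irrefl (p : ℤ × ℤ) : ¬ llt p p := by
  unfold llt; omega

lemma llt_add {p q v : ℤ × ℤ} : llt (p + v) (q + v) ↔ llt p q := by
  unfold llt; simp

lemma exists_lmax {A : Finset (ℤ × ℤ)} (hA : A.Nonempty) : ∃ a ∈ A, ∀ x ∈ A, x = a ∨ llt x a := by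
  obtain ⟨a, ha, hmax⟩ := Finset.exists_max_image A (fun p => toLex p) hA
  refine ⟨a, ha, ?_⟩
  intro x hx
  have := hmax x hx
  rw [Prod.Lex.toLex_le_toLex] at this
  unfold llt
  rcases this with h | ⟨h1, h2⟩
  · right; left; exact h
  · rcases lt_or_eq_of_le h2 with h | h
    · right; right; exact ⟨h1, h⟩
    · left; exact Prod.ext h1 h

lemma exists_lmin {A : Finset (ℤ × ℤ)} (hA : A.Nonempty) : ∃ a ∈ A, ∀ x ∈ A, x = a ∨ llt a x := by
  obtain ⟨a, ha, hmin⟩ := Finset.exists_min_image A (fun p => toLex p) hA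
  refine ⟨a, ha, ?_⟩
  intro x hx
  have := hmin x hx
  rw [Prod.Lex.toLex_le_toLex] at this
  unfold llt
  rcases this with h | ⟨h1, h2⟩
  · right; left; exact h
  · rcases lt_or_eq_of_le h2 with h | h
    · right; right; exact ⟨h1, h⟩
    · left; exact Prod.ext h1.symm h.symm

open Classical in
noncomputable def lmax (A : Finset (ℤ × ℤ)) : ℤ × ℤ :=
  if h : A.Nonempty then (exists_lmax h).choose else 0

open Classical in
noncomputable def lmin (A : Finset (ℤ × ℤ)) : ℤ × ℤ :=
  if h : A.Nonempty then (exists_lmin h).choose else 0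

lemma lmax_spec {A : Finset (ℤ × ℤ)} (hA : A.Nonempty) :
    lmax A ∈ A ∧ ∀ x ∈ A, x = lmax A ∨ llt x (lmax A) := by
  unfold lmax; rw [dif_pos hA]; exact (exists_lmax hA).choose_spec

lemma lmin_spec {A : Finset (ℤ × ℤ)} (hA : A.Nonempty) :
    lmin A ∈ A ∧ ∀ x ∈ A, x = lmin A ∨ llt (lmin A) x := by
  unfold lmin; rw [dif_pos hA]; exact (exists_lmin hA).choose_spec

/-- an initial segment of given size is unique -/
lemma lex_split {A B A' B' : Finset (ℤ × ℤ)} (h : A ∪ B = A' ∪ B') (hcard : A.card = A'.card)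
    (h1 : ∀ a ∈ A, ∀ b ∈ B, llt a b) (h2 : ∀ a ∈ A', ∀ b ∈ B', llt a b) : A = A' ∧ B = B' := by
  classical
  have hAA' : A = A' := by
    by_contra hne
    have hns : ¬ A ⊆ A' := fun hs => hne (Finset.eq_of_subset_of_card_le hs hcard.ge)
    have hns' : ¬ A' ⊆ A := fun hs => hne (Finset.eq_of_subset_of_card_le hs hcard.le).symm
    rw [Finset.not_subset] at hns hns'
    obtain ⟨a, ha, haA'⟩ := hns
    obtain ⟨a', ha', haA⟩ := hns'
    have hb : a ∈ B' := by
      have : a ∈ A' ∪ B' := h ▸ Finset.mem_union_left _ ha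
      rcases Finset.mem_union.1 this with h' | h'
      · exact absurd h' haA'
      · exact h'
    have hb' : a' ∈ B := by
      have : a' ∈ A ∪ B := h ▸ Finset.mem_union_left _ ha'
      rcases Finset.mem_union.1 this with h' | h'
      · exact absurd h' haA
      · exact h'
    exact llt_irrefl _ (llt_trans (h1 a ha a' hb') (h2 a' ha' a hb))
  subst hAA'
  refine ⟨rfl, ?_⟩
  have hd : Disjoint A B := by
    rw [Finset.disjoint_left]
    intro x hx hx'
    exact llt_irrefl _ (h1 x hx x hx')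
  have hd' : Disjoint A B' := by
    rw [Finset.disjoint_left]
    intro x hx hx'
    exact llt_irrefl _ (h2 x hx x hx')
  calc B = (A ∪ B) \ A := by rw [Finset.union_sdiff_cancel_left hd]
    _ = (A ∪ B') \ A := by rw [h]
    _ = B' := by rw [Finset.union_sdiff_cancel_left hd']

/-- the vector by which `B` is moved in the concatenation -/
noncomputable def cvec (A B : Finset (ℤ × ℤ)) : ℤ × ℤ := lmax A + (0, 1) - lmin B

noncomputable def concat (A B : Finset (ℤ × ℤ)) : Finset (ℤ × ℤ) := A ∪ shift (cvec A B) B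

lemma concat_lt {A B : Finset (ℤ × ℤ)} (hA : A.Nonempty) (hB : B.Nonempty) :
    ∀ a ∈ A, ∀ b ∈ shift (cvec A B) B, llt a b := by
  intro a ha b hb
  rw [mem_shift] at hb
  have h1 := (lmax_spec hA).2 a ha
  have h2 := (lmin_spec hB).2 _ hb
  have h3 : llt (lmax A) b := by
    rcases h2 with h | h
    · have : b = lmax A + (0, 1) := by
        have := congrArg (fun x => x + cvec A B) h
        simp only [sub_add_cancel] at this
        rw [this]; unfold cvec; abel
      rw [this]; unfold llt; simp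
    · have h4 := (llt_add (v := cvec A B)).2 h
      rw [sub_add_cancel] at h4
      have h5 : lmin B + cvec A B = lmax A + (0, 1) := by unfold cvec; abel
      rw [h5] at h4
      refine llt_trans ?_ h4
      unfold llt; simp
  rcases h1 with h | h
  · rw [h]; exact h3
  · exact llt_trans h h3

lemma card_mul_le (m n : ℕ) : (X m).card * (X n).card ≤ (X (m + n)).card := by
  classical
  rw [← Finset.card_product]
  apply Finset.card_le_card_of_injOn (fun p => nf (concat p.1 p.2))
  · rintro ⟨A, B⟩ hAB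
    rw [Finset.mem_coe, Finset.mem_product] at hAB
    obtain ⟨hA, hB⟩ := hAB
    simp only at hA hB ⊢
    rw [mem_X] at hA hB
    have hAne := hA.2.1.1
    have hBne := hB.2.1.1
    have hne : (concat A B).Nonempty := hAne.mono Finset.subset_union_left
    obtain ⟨v, hv⟩ := nf_shift_eq hne
    rw [Finset.mem_coe, mem_X]
    refine ⟨?_, ?_, nf_nrm hne⟩
    · rw [hv, card_shift]
      unfold concat
      rw [Finset.card_union_of_disjoint, card_shift, hA.1, hB.1]
      rw [Finset.disjoint_left]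
      intro x hx hx'
      exact llt_irrefl _ (concat_lt hAne hBne x hx x hx')
    · rw [hv]
      apply conn_shift
      unfold concat
      refine conn_union hA.2.1 (conn_shift hB.2.1) (lmax_spec hAne).1
        (b := lmin B + cvec A B) (add_mem_shift (lmin_spec hBne).1) ?_
      rw [adj_iff]
      unfold cvec
      simp
  · rintro ⟨A, B⟩ hAB ⟨A', B'⟩ hAB' h
    rw [Finset.mem_coe, Finset.mem_product] at hAB hAB'
    obtain ⟨hA, hB⟩ := hAB
    obtain ⟨hA', hB'⟩ := hAB'
    simp only at hA hB hA' hB' h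
    rw [mem_X] at hA hB hA' hB'
    have hAne := hA.2.1.1
    have hBne := hB.2.1.1
    have hAne' := hA'.2.1.1
    have hBne' := hB'.2.1.1
    have hne : (concat A B).Nonempty := hAne.mono Finset.subset_union_left
    have hne' : (concat A' B').Nonempty := hAne'.mono Finset.subset_union_left
    obtain ⟨v, hv⟩ := nf_shift_eq hne
    obtain ⟨v', hv'⟩ := nf_shift_eq hne'
    rw [hv, hv'] at h
    unfold concat at h
    rw [shift_union, shift_union] at h
    have hl : ∀ (v : ℤ × ℤ) {P Q : Finset (ℤ × ℤ)}, (∀ a ∈ P, ∀ b ∈ Q, llt a b) →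
        ∀ a ∈ shift v P, ∀ b ∈ shift v Q, llt a b := by
      intro v P Q hPQ a ha b hb
      rw [mem_shift] at ha hb
      have := (llt_add (v := v)).2 (hPQ _ ha _ hb)
      rwa [sub_add_cancel, sub_add_cancel] at this
    obtain ⟨e1, e2⟩ := lex_split h (by rw [card_shift, card_shift, hA.1, hA'.1])
      (hl v (concat_lt hAne hBne)) (hl v' (concat_lt hAne' hBne'))
    have e1' : A' = shift (v + -v') A := by
      rw [← shift_shift, e1, shift_shift, add_neg_cancel, shift_zero]
    have hv0 : v + -v' = 0 := nrm_unique hA.2.2 (e1' ▸ hA'.2.2)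
    have hAA : A' = A := by rw [e1', hv0, shift_zero]
    subst hAA
    have hvv : v = v' := by
      have := congrArg (fun x => x + v') hv0
      simpa using this
    subst hvv
    have e2' : B' = shift (cvec A' B + v + -(cvec A' B' + v)) B := by
      rw [← shift_shift, ← shift_shift, e2, shift_shift, shift_shift]
      rw [show cvec A' B' + (v + -(cvec A' B' + v)) = 0 by abel, shift_zero]
    have hw0 := nrm_unique hB.2.2 (e2' ▸ hB'.2.2)
    rw [hw0, shift_zero] at e2'
    rw [e2']

lemma t_mul_le (m n : ℕ) : t m * t n ≤ t (m + n) := by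
  rw [t_eq, t_eq, t_eq]; exact card_mul_le m n

lemma t_one_pos : 0 < t 1 := by
  rw [t_eq, Finset.card_pos]
  refine ⟨{(0, 0)}, mem_X.2 ⟨by simp, conn_singleton _, ?_⟩⟩
  refine ⟨?_, ?_, ?_⟩ <;> simp

lemma t_pos {n : ℕ} (hn : 1 ≤ n) : 0 < t n := by
  induction n, hn using Nat.le_induction with
  | base => exact t_one_pos
  | succ n _ ih =>
    exact lt_of_lt_of_le (Nat.mul_pos ih t_one_pos) (t_mul_le n 1)

lemma t_le_sum {n : ℕ} (hn : 2 ≤ n) :
    t n ≤ ∑ k ∈ idx n, t k * (t (n - k) * (k * ((n - k) * 4))) := by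
  have := card_X_le hn
  simpa only [t_eq] using this

/-- the auxiliary weight -/
noncomputable def g (n : ℕ) : ℕ := 5832 * n ^ 3 * t n

lemma g_split {n : ℕ} (hn : 2 ≤ n) : ∃ k ∈ idx n, g n ≤ g k * g (n - k) := by
  by_contra hcon
  push Not at hcon
  have hidx : ∀ k ∈ idx n, 1 ≤ k := by
    intro k hk
    have := mem_idx.1 hk
    omega
  have hcard : (idx n).card ≤ n := by
    have hsub : idx n ⊆ Finset.Icc 1 n := by
      intro k hk
      have h1 := mem_idx.1 hk
      have h2 := hidx k hk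
      rw [Finset.mem_Icc]; omega
    calc (idx n).card ≤ (Finset.Icc 1 n).card := Finset.card_le_card hsub
      _ = n := by simp
  -- bound every term
  have hterm : ∀ k ∈ idx n, n * (t k * (t (n - k) * (k * ((n - k) * 4)))) < t n := by
    intro k hk
    have h1 := mem_idx.1 hk
    have h2 := hidx k hk
    have h3 := hcon k hk
    have hnk : n ^ 2 ≤ 18 * (k * (n - k)) := by
      obtain ⟨j, hj⟩ : ∃ j, n = k + j := ⟨n - k, by omega⟩
      subst hj
      rw [Nat.add_sub_cancel_left]
      nlinarith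
    have h4 : k * ((n - k) * 4) ≤ n ^ 2 := by
      obtain ⟨j, hj⟩ : ∃ j, n = k + j := ⟨n - k, by omega⟩
      subst hj
      rw [Nat.add_sub_cancel_left]
      nlinarith [sq_nonneg ((k : ℤ) - j), sq_nonneg (k - j : ℤ)]
    have h5 : (n ^ 2) ^ 3 ≤ (18 * (k * (n - k))) ^ 3 := Nat.pow_le_pow_left hnk 3
    unfold g at h3
    -- `5832 n^3 * (n^3 t k t (n-k)) ≤ g k * g (n-k) < 5832 n^3 t n`
    have h6 : 5832 * n ^ 3 * (n ^ 3 * (t k * t (n - k))) ≤
        5832 * k ^ 3 * t k * (5832 * (n - k) ^ 3 * t (n - k)) := by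
      calc 5832 * n ^ 3 * (n ^ 3 * (t k * t (n - k)))
          = 5832 * ((n ^ 2) ^ 3 * (t k * t (n - k))) := by ring
        _ ≤ 5832 * ((18 * (k * (n - k))) ^ 3 * (t k * t (n - k))) := by
          apply Nat.mul_le_mul_left
          exact Nat.mul_le_mul_right _ h5
        _ = 5832 * k ^ 3 * t k * (5832 * (n - k) ^ 3 * t (n - k)) := by ring
    have h7 : 5832 * n ^ 3 * (n ^ 3 * (t k * t (n - k))) < 5832 * n ^ 3 * t n :=
      lt_of_le_of_lt h6 h3
    have h8 : n ^ 3 * (t k * t (n - k)) < t n := lt_of_mul_lt_mul_left h7 (Nat.zero_le _)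
    calc n * (t k * (t (n - k) * (k * ((n - k) * 4))))
        = n * (t k * t (n - k)) * (k * ((n - k) * 4)) := by ring
      _ ≤ n * (t k * t (n - k)) * n ^ 2 := Nat.mul_le_mul_left _ h4
      _ = n ^ 3 * (t k * t (n - k)) := by ring
      _ < t n := h8
  have hsum := t_le_sum hn
  have htn : 0 < t n := t_pos (by omega)
  have hne : (idx n).Nonempty := by
    rw [Finset.nonempty_iff_ne_empty]
    intro h
    rw [h] at hsum
    simp at hsum
    omega
  have : n * t n < n * t n := by
    calc n * t n ≤ n * ∑ k ∈ idx n, t k * (t (n - k) * (k * ((n - k) * 4))) :=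
          Nat.mul_le_mul_left _ hsum
      _ = ∑ k ∈ idx n, n * (t k * (t (n - k) * (k * ((n - k) * 4)))) := Finset.mul_sum _ _ _
      _ < ∑ _k ∈ idx n, t n := Finset.sum_lt_sum_of_nonempty hne hterm
      _ = (idx n).card * t n := by simp
      _ ≤ n * t n := Nat.mul_le_mul_right _ hcard
  exact lt_irrefl _ this

end Pool.Agent.H42.Klarner
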