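import Mathlib

/-!
# Definitions: polyominoes on the square lattice, computable sequences of rationals
-/

namespace Pool.Agent.H42.Klarner

/-- The square lattice: cells are labelled by `ℤ × ℤ`, two cells are adjacent when they share an
edge. -/
def grid : SimpleGraph (ℤ × ℤ) where
  Adj p q := |p.1 - q.1| + |p.2 - q.2| = 1
  symm := ⟨fun p q h => by rw [abs_sub_comm q.1, abs_sub_comm q.2]; exact h⟩
  loopless := ⟨fun p h => by simp at h⟩

/-- `S` is an `n`-omino: a set of `n` cells which is connected under edge-adjacency. -/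
def IsOmino (n : ℕ) (S : Finset (ℤ × ℤ)) : Prop :=
  S.card = n ∧ (grid.induce (S : Set (ℤ × ℤ))).Connected

/-- The translate of a set of cells by the vector `v`. -/
def shift (v : ℤ × ℤ) (S : Finset (ℤ × ℤ)) : Finset (ℤ × ℤ) := S.image (fun p => p + v)

theorem mem_shift {v p : ℤ × ℤ} {S : Finset (ℤ × ℤ)} : p ∈ shift v S ↔ p - v ∈ S := by
  unfold shift
  rw [Finset.mem_image]
  constructor
  · rintro ⟨a, ha, rfl⟩
    rw [add_sub_cancel_right]; exact ha
  · intro h
    exact ⟨p - v, h, sub_add_cancel p v⟩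

/-- Two `n`-ominoes are equivalent when one is a translate of the other. -/
def transSetoid (n : ℕ) : Setoid {S : Finset (ℤ × ℤ) // IsOmino n S} where
  r S T := ∃ v : ℤ × ℤ, T.1 = shift v S.1
  iseqv := {
    refl := fun S => ⟨0, by ext p; rw [mem_shift, sub_zero]⟩
    symm := by
      rintro S T ⟨v, hv⟩
      refine ⟨-v, ?_⟩
      ext p
      rw [mem_shift, hv, mem_shift, sub_neg_eq_add, add_sub_cancel_right]
    trans := by
      rintro S T U ⟨v, hv⟩ ⟨w, hw⟩
      refine ⟨w + v, ?_⟩
      ext p
      rw [hw, mem_shift, hv, mem_shift, mem_shift, sub_sub] }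

/-- `t n`: the number of fixed `n`-ominoes, i.e. of classes of `n`-ominoes modulo translations. -/
noncomputable def t (n : ℕ) : ℕ := Nat.card (Quotient (transSetoid n))

/-- A sequence of nonnegative rational numbers is computable if its terms are quotients of the
values of two computable functions `ℕ → ℕ`. -/
def ComputableRatSeq (β : ℕ → ℚ) : Prop :=
  ∃ num den : ℕ → ℕ, Computable num ∧ Computable den ∧
    ∀ n, 0 < den n ∧ β n = (num n : ℚ) / (den n : ℚ)

/-- The least natural number `j` such that `5832 * k ^ 3 * t k * (2 ^ m) ^ k ≤ j ^ k` for all `k`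
with `m ≤ k ≤ 8 * m`. -/
noncomputable def upNum (m : ℕ) : ℕ :=
  sInf {j : ℕ | ∀ k, m ≤ k → k ≤ 8 * m → 5832 * k ^ 3 * t k * (2 ^ m) ^ k ≤ j ^ k}

/-- An explicit sequence of rational numbers: `upBound n = (upNum (n + 1) + 1) / 2 ^ (n + 1)`. -/
noncomputable def upBound (n : ℕ) : ℚ := ((upNum (n + 1) : ℚ) + 1) / 2 ^ (n + 1)

end Pool.Agent.H42.Klarner
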